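import Mathlib
import Pool.Agent.H25.Plancherel

set_option autoImplicit false

/-! The Fourier extension operator of the paraboloid, the plane being identified with `ℂ`. -/

namespace Pool.Agent.H25.Ext

open MeasureTheory FourierTransform
open scoped ENNReal RealInnerProductSpace

/-- the phase `x·ξ' + |x|² t` -/
noncomputable def ph (ζ : ℂ) (t : ℝ) (z : ℂ) : ℝ :=
  z.re * ζ.re + z.im * ζ.im + (z.re ^ 2 + z.im ^ 2) * t

/-- extension operator -/
noncomputable def ext (g : ℂ → ℂ) (ζ : ℂ) (t : ℝ) : ℂ :=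
  ∫ z : ℂ, Complex.exp (-(Complex.I * (ph ζ t z : ℂ))) * g z

lemma norm_exp_ph (a : ℝ) : ‖Complex.exp (-(Complex.I * (a : ℂ)))‖ = 1 := by
  rw [Complex.norm_exp]
  simp

lemma ph_continuous (ζ : ℂ) (t : ℝ) : Continuous (ph ζ t) := by
  unfold ph; fun_prop

lemma ext_integrand_integrable {g : ℂ → ℂ} (hg : Integrable g) (ζ : ℂ) (t : ℝ) :
    Integrable (fun z => Complex.exp (-(Complex.I * (ph ζ t z : ℂ))) * g z) := by
  have hc : Continuous (fun z => Complex.exp (-(Complex.I * (ph ζ t z : ℂ)))) := by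
    have := ph_continuous ζ t
    fun_prop
  refine hg.bdd_mul (c := 1) hc.aestronglyMeasurable ?_
  exact Filter.Eventually.of_forall fun z => (norm_exp_ph _).le

lemma norm_ext_le {g : ℂ → ℂ} (ζ : ℂ) (t : ℝ) : ‖ext g ζ t‖ ≤ ∫ z, ‖g z‖ := by
  unfold ext
  refine (norm_integral_le_integral_norm _).trans (le_of_eq ?_)
  congr 1
  funext z
  rw [norm_mul, norm_exp_ph, one_mul]

lemma ext_add {g h : ℂ → ℂ} (hg : Integrable g) (hh : Integrable h) (ζ : ℂ) (t : ℝ) :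
    ext (g + h) ζ t = ext g ζ t + ext h ζ t := by
  unfold ext
  rw [← integral_add (ext_integrand_integrable hg ζ t) (ext_integrand_integrable hh ζ t)]
  congr 1
  funext z
  simp only [Pi.add_apply]
  ring

lemma ext_continuous {g : ℂ → ℂ} (hg : Integrable g) :
    Continuous (fun p : ℂ × ℝ => ext g p.1 p.2) := by
  unfold ext
  refine continuous_of_dominated (bound := fun z => ‖g z‖) ?_ ?_ hg.norm ?_
  · intro p
    exact (ext_integrand_integrable hg p.1 p.2).aestronglyMeasurable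
  · intro p
    refine Filter.Eventually.of_forall fun z => ?_
    rw [norm_mul, norm_exp_ph, one_mul]
  · refine Filter.Eventually.of_forall fun z => ?_
    unfold ph
    fun_prop

/-- scaling of the lower integral on `ℂ`. -/
lemma lintegral_scale (F : ℂ → ℝ≥0∞) {r : ℝ} (hr : 0 < r) :
    ∫⁻ ζ : ℂ, F (r • ζ) = ENNReal.ofReal ((r ^ 2)⁻¹) * ∫⁻ ζ : ℂ, F ζ := by
  have h := Measure.map_addHaar_smul (volume : Measure ℂ) hr.ne'
  rw [Complex.finrank_real_complex, abs_of_pos (by positivity)] at h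
  have h2 : ∫⁻ ζ : ℂ, F (r • ζ) = ∫⁻ ζ, F ζ ∂(Measure.map (fun x : ℂ => r • x) volume) :=
    ((Homeomorph.smulOfNeZero r hr.ne').measurableEmbedding.lintegral_map F).symm
  rw [h2, h, lintegral_smul_measure, smul_eq_mul]

lemma fourier_ext (g : ℂ → ℂ) (ζ : ℂ) (t : ℝ) :
    ext g ζ t = 𝓕 (fun z => Complex.exp (-(Complex.I * (((z.re ^ 2 + z.im ^ 2) * t : ℝ) : ℂ))) * g z)
      ((2 * Real.pi)⁻¹ • ζ) := by
  rw [Real.fourier_eq']
  unfold ext
  congr 1
  funext z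
  rw [smul_eq_mul, ← mul_assoc, ← Complex.exp_add]
  congr 2
  have e : inner ℝ z ((2 * Real.pi)⁻¹ • ζ) = (2 * Real.pi)⁻¹ * (z.re * ζ.re + z.im * ζ.im) := by
    rw [inner_smul_right, Complex.inner]
    simp [Complex.mul_re]
    ring
  rw [e]
  unfold ph
  have hpi : (Real.pi : ℂ) ≠ 0 := by exact_mod_cast Real.pi_ne_zero
  push_cast
  field_simp
  ring

/-- Plancherel at a fixed time. -/
theorem plancherel_ext {g : ℂ → ℂ} (h1 : Integrable g) (h2 : MemLp g 2) (t : ℝ) :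
    ∫⁻ ζ : ℂ, ‖ext g ζ t‖ₑ ^ (2 : ℝ) = ENNReal.ofReal ((2 * Real.pi) ^ 2) * ∫⁻ z, ‖g z‖ₑ ^ (2 : ℝ) := by
  set G : ℂ → ℂ := fun z =>
    Complex.exp (-(Complex.I * (((z.re ^ 2 + z.im ^ 2) * t : ℝ) : ℂ))) * g z with hG
  have hc : Continuous (fun z : ℂ =>
      Complex.exp (-(Complex.I * (((z.re ^ 2 + z.im ^ 2) * t : ℝ) : ℂ)))) := by fun_prop
  have hG1 : Integrable G := h1.bdd_mul (c := 1) hc.aestronglyMeasurable
    (Filter.Eventually.of_forall fun z => (norm_exp_ph _).le)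
  have hnorm : ∀ z, ‖G z‖ = ‖g z‖ := fun z => by
    rw [hG]; simp only [norm_mul, norm_exp_ph, one_mul]
  have hG2 : MemLp G 2 := h2.of_le hG1.aestronglyMeasurable
    (Filter.Eventually.of_forall fun z => (hnorm z).le)
  have h3 := Plancherel.eLpNorm_fourier_eq hG1 hG2
  have h4 : eLpNorm G 2 = eLpNorm g 2 :=
    eLpNorm_congr_norm_ae (Filter.Eventually.of_forall hnorm)
  rw [h4] at h3
  have h5 : ∫⁻ ζ : ℂ, ‖(𝓕 G) ζ‖ₑ ^ (2 : ℝ) = ∫⁻ z, ‖g z‖ₑ ^ (2 : ℝ) := by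
    have e1 := eLpNorm_eq_lintegral_rpow_enorm_toReal (f := 𝓕 G) (μ := volume) (p := 2) (by norm_num)
      (by norm_num)
    have e2 := eLpNorm_eq_lintegral_rpow_enorm_toReal (f := g) (μ := volume) (p := 2) (by norm_num)
      (by norm_num)
    rw [e1, e2] at h3
    simp only [ENNReal.toReal_ofNat] at h3
    have h6 := congrArg (fun x : ℝ≥0∞ => x ^ (2 : ℝ)) h3
    rw [← ENNReal.rpow_mul, ← ENNReal.rpow_mul] at h6
    norm_num at h6
    simpa using h6
  have h6 : ∀ ζ, ext g ζ t = (𝓕 G) ((2 * Real.pi)⁻¹ • ζ) := fun ζ => fourier_ext g ζ t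
  simp only [h6]
  have h7 := lintegral_scale (fun ζ => ‖(𝓕 G) ζ‖ₑ ^ (2 : ℝ)) (by positivity : 0 < (2 * Real.pi)⁻¹)
  rw [h5] at h7
  rw [h7]
  congr 2
  rw [inv_pow, inv_inv]

end Pool.Agent.H25.Ext
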