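import Mathlib

set_option autoImplicit false

/-! A discrete interpolation lemma between `L²` and `L^∞`. -/

namespace Pool.Agent.H25.Ext

open MeasureTheory
open scoped ENNReal Real

lemma lintegral_rpow_Ioc {r b : ℝ} (hr : 0 < r) (hb : 0 ≤ b) :
    ∫⁻ x in Set.Ioc 0 b, ENNReal.ofReal (x ^ r) = ENNReal.ofReal (b ^ (r + 1) / (r + 1)) := by
  have hi : IntervalIntegrable (fun x : ℝ => x ^ r) volume 0 b :=
    intervalIntegral.intervalIntegrable_rpow' (by linarith)
  have hi' : IntegrableOn (fun x : ℝ => x ^ r) (Set.Ioc 0 b) := by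
    rw [intervalIntegrable_iff_integrableOn_Ioc_of_le hb] at hi
    exact hi
  have hnn : 0 ≤ᵐ[volume.restrict (Set.Ioc 0 b)] fun x : ℝ => x ^ r := by
    filter_upwards [ae_restrict_mem measurableSet_Ioc] with x hx
    exact Real.rpow_nonneg hx.1.le _
  rw [← ofReal_integral_eq_lintegral_ofReal hi' hnn, ← intervalIntegral.integral_of_le hb,
    integral_rpow (Or.inl (by linarith))]
  congr 1
  rw [Real.zero_rpow (by linarith), sub_zero]

theorem marc {ι : Type*} [DecidableEq ι] {q : ℝ} (hq : 3 < q) (I : Finset ι) (a : ι → ℝ)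
    (ha : ∀ i, 0 ≤ a i) (F : ι → ℂ → ℂ) (hF : ∀ i, Continuous (F i)) {K B : ℝ} (hK : 0 < K)
    (hB : 0 ≤ B)
    (H1 : ∀ l : ℝ, 0 < l → ∀ ζ, ‖∑ i ∈ I with a i ≤ l, F i ζ‖ₑ ≤ ENNReal.ofReal (K * l))
    (H2 : ∀ l : ℝ, 0 < l → ∫⁻ ζ, ‖∑ i ∈ I with l < a i, F i ζ‖ₑ ^ (2 : ℝ) ≤
      ENNReal.ofReal (B * ∑ i ∈ I with l < a i, a i ^ 2)) :
    ∫⁻ ζ, ‖∑ i ∈ I, F i ζ‖ₑ ^ q ≤
      ENNReal.ofReal (q * 2 ^ q / (q - 2) * K ^ (q - 2) * B * ∑ i ∈ I, a i ^ q) := by
  have hq0 : 0 < q := by linarith
  set f : ℂ → ℝ := fun ζ => ‖∑ i ∈ I, F i ζ‖ with hf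
  have hfc : Continuous f := by
    rw [hf]; fun_prop
  have e1 : ∫⁻ ζ, ‖∑ i ∈ I, F i ζ‖ₑ ^ q = ∫⁻ ζ, ENNReal.ofReal (f ζ ^ q) := by
    congr 1
    funext ζ
    rw [← ofReal_norm, ENNReal.ofReal_rpow_of_nonneg (norm_nonneg _) hq0.le]
  have e2 := lintegral_rpow_eq_lintegral_meas_lt_mul (volume : Measure ℂ) (f := f)
    (Filter.Eventually.of_forall fun ζ => norm_nonneg _) hfc.measurable.aemeasurable hq0
  rw [e1, e2]
  have key : ∀ m ∈ Set.Ioi (0:ℝ), (volume : Measure ℂ) {ζ | m < f ζ} * ENNReal.ofReal (m ^ (q - 1)) ≤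
      ∑ i ∈ I, (Set.Ioc 0 (2 * K * a i)).indicator
        (fun m => ENNReal.ofReal (4 * B * a i ^ 2) * ENNReal.ofReal (m ^ (q - 3))) m := by
    intro m hm
    have hm0 : 0 < m := hm
    set l := m / (2 * K) with hl
    have hl0 : 0 < l := by positivity
    have hKl : K * l = m / 2 := by rw [hl]; field_simp
    set b : ℂ → ℂ := fun ζ => ∑ i ∈ I with l < a i, F i ζ with hb
    have hbc : Continuous b := by rw [hb]; fun_prop
    have hsub : {ζ | m < f ζ} ⊆ {ζ | ENNReal.ofReal ((m / 2) ^ 2) ≤ ‖b ζ‖ₑ ^ (2 : ℝ)} := by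
      intro ζ hζ
      simp only [Set.mem_ofPred_eq] at hζ ⊢
      have h1 : ∑ i ∈ I, F i ζ = (∑ i ∈ I with a i ≤ l, F i ζ) + b ζ := by
        rw [hb]
        have := Finset.sum_filter_add_sum_filter_not I (fun i => a i ≤ l) (fun i => F i ζ)
        rw [← this]
        simp only [not_le]
      have h2 : ‖∑ i ∈ I with a i ≤ l, F i ζ‖ ≤ m / 2 := by
        have := H1 l hl0 ζ
        rw [← ofReal_norm, hKl] at this
        exact (ENNReal.ofReal_le_ofReal_iff (by positivity)).mp this
      have h3 : m / 2 < ‖b ζ‖ := by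
        have h4 : f ζ ≤ ‖∑ i ∈ I with a i ≤ l, F i ζ‖ + ‖b ζ‖ := by
          rw [hf]
          simp only
          rw [h1]
          exact norm_add_le _ _
        linarith
      rw [← ofReal_norm, ENNReal.ofReal_rpow_of_nonneg (norm_nonneg _) (by norm_num)]
      apply ENNReal.ofReal_le_ofReal
      rw [← Real.rpow_natCast]
      push_cast
      gcongr
    have hmeas : (volume : Measure ℂ) {ζ | m < f ζ} ≤
        ENNReal.ofReal (4 / m ^ 2 * (B * ∑ i ∈ I with l < a i, a i ^ 2)) := by
      have hc := mul_meas_ge_le_lintegral₀ (μ := (volume : Measure ℂ))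
        (f := fun ζ => ‖b ζ‖ₑ ^ (2 : ℝ)) (by fun_prop) (ENNReal.ofReal ((m / 2) ^ 2))
      have hc2 : ENNReal.ofReal ((m / 2) ^ 2) * (volume : Measure ℂ) {ζ | m < f ζ} ≤
          ENNReal.ofReal (B * ∑ i ∈ I with l < a i, a i ^ 2) :=
        (mul_le_mul_right (measure_mono hsub) _).trans (hc.trans (H2 l hl0))
      have hpos : 0 < (m / 2) ^ 2 := by positivity
      calc (volume : Measure ℂ) {ζ | m < f ζ}
          = ENNReal.ofReal (4 / m ^ 2) * (ENNReal.ofReal ((m / 2) ^ 2) *
              (volume : Measure ℂ) {ζ | m < f ζ}) := by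
            rw [← mul_assoc, ← ENNReal.ofReal_mul (by positivity)]
            have : 4 / m ^ 2 * (m / 2) ^ 2 = 1 := by field_simp; norm_num
            rw [this, ENNReal.ofReal_one, one_mul]
        _ ≤ ENNReal.ofReal (4 / m ^ 2) * ENNReal.ofReal (B * ∑ i ∈ I with l < a i, a i ^ 2) := by
            gcongr
        _ = _ := by rw [← ENNReal.ofReal_mul (by positivity)]
    calc (volume : Measure ℂ) {ζ | m < f ζ} * ENNReal.ofReal (m ^ (q - 1))
        ≤ ENNReal.ofReal (4 / m ^ 2 * (B * ∑ i ∈ I with l < a i, a i ^ 2)) *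
            ENNReal.ofReal (m ^ (q - 1)) := by gcongr
      _ = ∑ i ∈ I with l < a i, ENNReal.ofReal (4 * B * a i ^ 2) * ENNReal.ofReal (m ^ (q - 3)) := by
          have e3 : m ^ (q - 1) = m ^ 2 * m ^ (q - 3) := by
            rw [← Real.rpow_natCast m 2, ← Real.rpow_add hm0]; congr 1; push_cast; ring
          rw [← Finset.sum_mul, ← ENNReal.ofReal_sum_of_nonneg (fun i _ => by positivity),
            ← ENNReal.ofReal_mul (by
              have : 0 ≤ ∑ i ∈ I with l < a i, a i ^ 2 := Finset.sum_nonneg fun i _ => by positivity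
              positivity),
            ← ENNReal.ofReal_mul (Finset.sum_nonneg fun i _ => by positivity), e3,
            ← Finset.mul_sum]
          congr 1
          field_simp
      _ ≤ _ := by
          rw [Finset.sum_filter]
          refine Finset.sum_le_sum fun i _ => ?_
          by_cases h : l < a i
          · rw [if_pos h, Set.indicator_of_mem]
            refine ⟨hm0, ?_⟩
            rw [hl, div_lt_iff₀ (by positivity)] at h
            linarith
          · rw [if_neg h]; exact zero_le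
  calc ENNReal.ofReal q * ∫⁻ m in Set.Ioi (0:ℝ), (volume : Measure ℂ) {ζ | m < f ζ} *
        ENNReal.ofReal (m ^ (q - 1))
      ≤ ENNReal.ofReal q * ∫⁻ m in Set.Ioi (0:ℝ), ∑ i ∈ I, (Set.Ioc 0 (2 * K * a i)).indicator
        (fun m => ENNReal.ofReal (4 * B * a i ^ 2) * ENNReal.ofReal (m ^ (q - 3))) m := by
        exact mul_le_mul_right (setLIntegral_mono' measurableSet_Ioi key) _
    _ ≤ ENNReal.ofReal q * ∑ i ∈ I, ENNReal.ofReal (4 * B * a i ^ 2) *
          ENNReal.ofReal ((2 * K * a i) ^ (q - 2) / (q - 2)) := by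
        gcongr
        rw [lintegral_finsetSum]
        · refine Finset.sum_le_sum fun i _ => ?_
          refine (setLIntegral_le_lintegral _ _).trans ?_
          rw [lintegral_indicator measurableSet_Ioc, lintegral_const_mul' _ _ ENNReal.ofReal_ne_top,
            lintegral_rpow_Ioc (by linarith) (by have := ha i; positivity)]
          have : q - 3 + 1 = q - 2 := by ring
          rw [this]
        · intro i _
          refine Measurable.indicator ?_ measurableSet_Ioc
          fun_prop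
    _ = _ := by
        have e4 : ∀ i ∈ I, ENNReal.ofReal q * (ENNReal.ofReal (4 * B * a i ^ 2) *
            ENNReal.ofReal ((2 * K * a i) ^ (q - 2) / (q - 2))) =
            ENNReal.ofReal (q * 2 ^ q / (q - 2) * K ^ (q - 2) * B * a i ^ q) := by
          intro i _
          have hai := ha i
          have hq2 : 0 < q - 2 := by linarith
          rw [← ENNReal.ofReal_mul (by positivity), ← ENNReal.ofReal_mul hq0.le]
          congr 1
          rw [Real.mul_rpow (by positivity) hai, Real.mul_rpow (by norm_num) hK.le]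
          have e5 : a i ^ q = a i ^ 2 * a i ^ (q - 2) := by
            rw [← Real.rpow_natCast (a i) 2,
              ← Real.rpow_add_of_nonneg hai (by norm_num) (by linarith)]
            congr 1; push_cast; ring
          have e6 : (2:ℝ) ^ q = 4 * 2 ^ (q - 2) := by
            have : (4:ℝ) = 2 ^ (2:ℝ) := by norm_num
            rw [this, ← Real.rpow_add (by norm_num)]
            congr 1; ring
          rw [e5, e6]
          field_simp
        rw [Finset.mul_sum, Finset.sum_congr rfl e4, ← ENNReal.ofReal_sum_of_nonneg, Finset.mul_sum]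
        intro i _
        have hai := ha i
        have hq2 : 0 < q - 2 := by linarith
        positivity

end Pool.Agent.H25.Ext
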