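import Mathlib

set_option autoImplicit false

/-! A smooth grid partition of unity in the plane. -/

namespace Pool.Agent.H25.Ext

open MeasureTheory Metric
open scoped ENNReal Real NNReal

/-- one-dimensional bump -/
noncomputable def bet (x : ℝ) : ℝ := Real.smoothTransition (x + 1) - Real.smoothTransition x

lemma bet_nonneg (x : ℝ) : 0 ≤ bet x := by
  unfold bet
  have := Real.smoothTransition.monotone (by linarith : x ≤ x + 1)
  linarith

lemma bet_le_one (x : ℝ) : bet x ≤ 1 := by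
  unfold bet
  have h1 := Real.smoothTransition.le_one (x + 1)
  have h2 := Real.smoothTransition.nonneg x
  linarith

lemma bet_eq_zero {x : ℝ} (hx : 1 ≤ |x|) : bet x = 0 := by
  unfold bet
  rcases le_abs.mp hx with h | h
  · rw [Real.smoothTransition.one_of_one_le h, Real.smoothTransition.one_of_one_le (by linarith)]
    ring
  · rw [Real.smoothTransition.zero_of_nonpos (by linarith : x ≤ 0),
      Real.smoothTransition.zero_of_nonpos (by linarith : x + 1 ≤ 0)]
    ring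

lemma bet_contDiff : ContDiff ℝ 1 bet := by
  unfold bet
  have h : ContDiff ℝ 1 Real.smoothTransition := Real.smoothTransition.contDiff
  exact (h.comp (contDiff_id.add contDiff_const)).sub h

lemma bet_lip : ∃ M : ℝ≥0, LipschitzWith M bet := by
  refine ContDiff.lipschitzWith_of_hasCompactSupport (𝕂 := ℝ) (n := 1) ?_ bet_contDiff one_ne_zero
  refine HasCompactSupport.of_support_subset_isCompact (isCompact_Icc (a := (-1:ℝ)) (b := 1)) ?_
  intro x hx
  by_contra h
  apply hx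
  apply bet_eq_zero
  by_contra h2
  apply h
  rw [not_le, abs_lt] at h2
  exact ⟨h2.1.le, h2.2.le⟩

/-- Lipschitz constant of `bet` -/
noncomputable def lipM : ℝ≥0 := bet_lip.choose

lemma lipM_spec : LipschitzWith lipM bet := bet_lip.choose_spec

lemma sum_bet_nat (x : ℝ) (a : ℤ) (n : ℕ) :
    ∑ m ∈ Finset.Ico a (a + n), bet (x - m) =
      Real.smoothTransition (x - a + 1) - Real.smoothTransition (x - (a + n) + 1) := by
  induction n with
  | zero => simp
  | succ n ih =>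
    have h1 : Finset.Ico a (a + (n + 1 : ℕ)) = insert (a + (n:ℤ)) (Finset.Ico a (a + n)) := by
      ext m
      simp only [Finset.mem_Ico, Finset.mem_insert]
      push_cast
      omega
    rw [h1, Finset.sum_insert (by simp), ih]
    unfold bet
    push_cast
    have e1 : x - (a + n) + 1 = x - ((a:ℝ) + n) + 1 := rfl
    have e2 : x - ((a:ℝ) + (n + 1)) + 1 = x - (a + n) := by ring
    rw [e2]
    ring

lemma sum_bet (x : ℝ) (N : ℕ) (hx : |x| ≤ N) :
    ∑ m ∈ Finset.Icc (-(N:ℤ)) N, bet (x - m) = 1 := by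
  have h := sum_bet_nat x (-(N:ℤ)) (2 * N + 1)
  have h1 : Finset.Ico (-(N:ℤ)) (-(N:ℤ) + ((2 * N + 1 : ℕ) : ℤ)) = Finset.Icc (-(N:ℤ)) N := by
    ext m
    simp only [Finset.mem_Ico, Finset.mem_Icc]
    push_cast
    omega
  rw [h1] at h
  rw [h]
  obtain ⟨h2, h3⟩ := abs_le.mp hx
  push_cast
  rw [Real.smoothTransition.one_of_one_le (by linarith),
    Real.smoothTransition.zero_of_nonpos (by linarith)]
  ring

/-- two-dimensional bump at scale `s` centred at the grid point `s (i.1 + I i.2)` -/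
noncomputable def Bf (s : ℝ) (i : ℤ × ℤ) (z : ℂ) : ℝ := bet (z.re / s - i.1) * bet (z.im / s - i.2)

/-- the box of indices -/
noncomputable def box (N : ℕ) : Finset (ℤ × ℤ) := Finset.Icc (-(N:ℤ)) N ×ˢ Finset.Icc (-(N:ℤ)) N

/-- the cell -/
def cell (s : ℝ) (i : ℤ × ℤ) : Set ℂ := {z | |z.re / s - i.1| ≤ 1 ∧ |z.im / s - i.2| ≤ 1}

/-- grid point -/
noncomputable def gp (s : ℝ) (i : ℤ × ℤ) : ℂ := ⟨s * i.1, s * i.2⟩

lemma Bf_nonneg (s : ℝ) (i : ℤ × ℤ) (z : ℂ) : 0 ≤ Bf s i z :=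
  mul_nonneg (bet_nonneg _) (bet_nonneg _)

lemma Bf_le_one (s : ℝ) (i : ℤ × ℤ) (z : ℂ) : Bf s i z ≤ 1 :=
  mul_le_one₀ (bet_le_one _) (bet_nonneg _) (bet_le_one _)

lemma Bf_eq_zero {s : ℝ} {i : ℤ × ℤ} {z : ℂ} (h : ¬(|z.re / s - i.1| < 1 ∧ |z.im / s - i.2| < 1)) :
    Bf s i z = 0 := by
  unfold Bf
  by_cases h1 : |z.re / s - i.1| < 1
  · have h2 : 1 ≤ |z.im / s - i.2| := by
      by_contra h3
      exact h ⟨h1, not_le.mp h3⟩
    rw [bet_eq_zero h2, mul_zero]
  · rw [bet_eq_zero (not_lt.mp h1), zero_mul]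

lemma Bf_eq_zero_of_notMem {s : ℝ} {i : ℤ × ℤ} {z : ℂ} (h : z ∉ cell s i) : Bf s i z = 0 :=
  Bf_eq_zero fun h1 => h ⟨h1.1.le, h1.2.le⟩

lemma Bf_contDiff (s : ℝ) (i : ℤ × ℤ) : ContDiff ℝ 1 (Bf s i) := by
  unfold Bf
  have h1 : ContDiff ℝ 1 (fun z : ℂ => z.re / s - i.1) :=
    (Complex.reCLM.contDiff.div_const s).sub contDiff_const
  have h2 : ContDiff ℝ 1 (fun z : ℂ => z.im / s - i.2) :=
    (Complex.imCLM.contDiff.div_const s).sub contDiff_const
  exact (bet_contDiff.comp h1).mul (bet_contDiff.comp h2)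

lemma sum_Bf {s : ℝ} {N : ℕ} {z : ℂ} (h1 : |z.re / s| ≤ N) (h2 : |z.im / s| ≤ N) :
    ∑ i ∈ box N, Bf s i z = 1 := by
  unfold box Bf
  rw [Finset.sum_product]
  simp_rw [← Finset.mul_sum]
  rw [← Finset.sum_mul, sum_bet _ N h1, sum_bet _ N h2, one_mul]

lemma sum_Bf_le_one (s : ℝ) (J : Finset (ℤ × ℤ)) (z : ℂ) : ∑ i ∈ J, Bf s i z ≤ 1 := by
  obtain ⟨N, hN⟩ : ∃ N : ℕ, J ⊆ box N ∧ |z.re / s| ≤ N ∧ |z.im / s| ≤ N := by
    obtain ⟨n1, hn1⟩ := exists_nat_ge (|z.re / s|)
    obtain ⟨n2, hn2⟩ := exists_nat_ge (|z.im / s|)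
    set n3 := ∑ i ∈ J, (i.1.natAbs + i.2.natAbs) with hn3
    refine ⟨n1 + n2 + n3, ?_, ?_, ?_⟩
    · intro i hi
      have h1 : i.1.natAbs + i.2.natAbs ≤ n3 :=
        Finset.single_le_sum (f := fun i : ℤ × ℤ => i.1.natAbs + i.2.natAbs)
          (fun _ _ => Nat.zero_le _) hi
      unfold box
      simp only [Finset.mem_product, Finset.mem_Icc]
      push_cast
      omega
    · push_cast
      have : (0:ℝ) ≤ (n2:ℝ) + n3 := by positivity
      linarith
    · push_cast
      have : (0:ℝ) ≤ (n1:ℝ) + n3 := by positivity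
      linarith
  calc ∑ i ∈ J, Bf s i z ≤ ∑ i ∈ box N, Bf s i z :=
        Finset.sum_le_sum_of_subset_of_nonneg hN.1 fun i _ _ => Bf_nonneg s i z
    _ = 1 := sum_Bf hN.2.1 hN.2.2

lemma Bf_lip {s : ℝ} (hs : 0 < s) (i : ℤ × ℤ) (z w : ℂ) :
    |Bf s i z - Bf s i w| ≤ 2 * lipM / s * ‖z - w‖ := by
  have hb : ∀ x y : ℝ, |bet x - bet y| ≤ lipM * |x - y| := by
    intro x y
    have := lipM_spec.dist_le_mul x y
    rwa [Real.dist_eq, Real.dist_eq] at this
  have h1 : |bet (z.re / s - i.1) - bet (w.re / s - i.1)| ≤ lipM / s * ‖z - w‖ := by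
    refine (hb _ _).trans ?_
    have e : z.re / s - i.1 - (w.re / s - i.1) = (z - w).re / s := by
      rw [Complex.sub_re]; ring
    rw [e, abs_div, abs_of_pos hs]
    calc (lipM : ℝ) * (|(z - w).re| / s) = lipM / s * |(z - w).re| := by ring
      _ ≤ _ := by
        have := Complex.abs_re_le_norm (z - w)
        gcongr
  have h2 : |bet (z.im / s - i.2) - bet (w.im / s - i.2)| ≤ lipM / s * ‖z - w‖ := by
    refine (hb _ _).trans ?_
    have e : z.im / s - i.2 - (w.im / s - i.2) = (z - w).im / s := by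
      rw [Complex.sub_im]; ring
    rw [e, abs_div, abs_of_pos hs]
    calc (lipM : ℝ) * (|(z - w).im| / s) = lipM / s * |(z - w).im| := by ring
      _ ≤ _ := by
        have := Complex.abs_im_le_norm (z - w)
        gcongr
  unfold Bf
  have e : bet (z.re / s - i.1) * bet (z.im / s - i.2) - bet (w.re / s - i.1) * bet (w.im / s - i.2) =
      (bet (z.re / s - i.1) - bet (w.re / s - i.1)) * bet (z.im / s - i.2) +
      bet (w.re / s - i.1) * (bet (z.im / s - i.2) - bet (w.im / s - i.2)) := by ring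
  rw [e]
  refine (abs_add_le _ _).trans ?_
  rw [abs_mul, abs_mul, abs_of_nonneg (bet_nonneg _), abs_of_nonneg (bet_nonneg _)]
  have h3 := bet_le_one (z.im / s - i.2)
  have h4 := bet_le_one (w.re / s - i.1)
  have h5 := bet_nonneg (z.im / s - i.2)
  have h6 := bet_nonneg (w.re / s - i.1)
  calc |bet (z.re / s - i.1) - bet (w.re / s - i.1)| * bet (z.im / s - i.2) +
        bet (w.re / s - i.1) * |bet (z.im / s - i.2) - bet (w.im / s - i.2)|
      ≤ (lipM / s * ‖z - w‖) * 1 + 1 * (lipM / s * ‖z - w‖) := by gcongr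
    _ = _ := by ring

lemma cell_subset {s : ℝ} (hs : 0 < s) (i : ℤ × ℤ) : cell s i ⊆ closedBall (gp s i) (2 * s) := by
  intro z hz
  obtain ⟨h1, h2⟩ := hz
  rw [mem_closedBall, dist_eq_norm]
  have e1 : |(z - gp s i).re| ≤ s := by
    have : (z - gp s i).re = s * (z.re / s - i.1) := by
      rw [Complex.sub_re]
      simp only [gp]
      field_simp
    rw [this, abs_mul, abs_of_pos hs]
    nlinarith
  have e2 : |(z - gp s i).im| ≤ s := by
    have : (z - gp s i).im = s * (z.im / s - i.2) := by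
      rw [Complex.sub_im]
      simp only [gp]
      field_simp
    rw [this, abs_mul, abs_of_pos hs]
    nlinarith
  have := Complex.norm_le_abs_re_add_abs_im (z - gp s i)
  linarith

lemma cell_isClosed (s : ℝ) (i : ℤ × ℤ) : IsClosed (cell s i) := by
  unfold cell
  have h1 : IsClosed {z : ℂ | |z.re / s - i.1| ≤ 1} := by
    refine isClosed_le ?_ continuous_const
    fun_prop
  have h2 : IsClosed {z : ℂ | |z.im / s - i.2| ≤ 1} := by
    refine isClosed_le ?_ continuous_const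
    fun_prop
  exact h1.inter h2

lemma card_near (x : ℝ) (J : Finset ℤ) : (J.filter fun m : ℤ => |x - m| ≤ 1).card ≤ 3 := by
  have hsub : (J.filter fun m : ℤ => |x - m| ≤ 1) ⊆ Finset.Icc (⌊x⌋ - 1) (⌊x⌋ + 1) := by
    intro m hm
    rw [Finset.mem_filter] at hm
    obtain ⟨h1, h2⟩ := abs_le.mp hm.2
    rw [Finset.mem_Icc]
    have h3 := Int.floor_le x
    have h4 := Int.lt_floor_add_one x
    constructor
    · have : (⌊x⌋ : ℝ) - 1 ≤ m := by linarith
      exact_mod_cast this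
    · have : (m : ℝ) < ⌊x⌋ + 2 := by linarith
      have h5 : m < ⌊x⌋ + 2 := by exact_mod_cast this
      omega
  refine (Finset.card_le_card hsub).trans ?_
  rw [Int.card_Icc]
  omega

open Classical in
lemma card_cell (s : ℝ) (J : Finset (ℤ × ℤ)) (z : ℂ) :
    (J.filter fun i => z ∈ cell s i).card ≤ 9 := by
  have hsub : (J.filter fun i => z ∈ cell s i) ⊆
      ((J.image Prod.fst).filter fun m : ℤ => |z.re / s - m| ≤ 1) ×ˢ
      ((J.image Prod.snd).filter fun m : ℤ => |z.im / s - m| ≤ 1) := by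
    intro i hi
    rw [Finset.mem_filter] at hi
    rw [Finset.mem_product, Finset.mem_filter, Finset.mem_filter]
    exact ⟨⟨Finset.mem_image_of_mem _ hi.1, hi.2.1⟩, ⟨Finset.mem_image_of_mem _ hi.1, hi.2.2⟩⟩
  refine (Finset.card_le_card hsub).trans ?_
  rw [Finset.card_product]
  have h1 := card_near (z.re / s) (J.image Prod.fst)
  have h2 := card_near (z.im / s) (J.image Prod.snd)
  calc _ ≤ 3 * 3 := Nat.mul_le_mul h1 h2
    _ = 9 := by norm_num

/-- real-valued bump as complex-valued function -/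
noncomputable def Bc (s : ℝ) (i : ℤ × ℤ) (z : ℂ) : ℂ := (Bf s i z : ℂ)

lemma Bc_contDiff (s : ℝ) (i : ℤ × ℤ) : ContDiff ℝ 1 (Bc s i) :=
  Complex.ofRealCLM.contDiff.comp (Bf_contDiff s i)

lemma norm_fderiv_Bc {s : ℝ} (hs : 0 < s) (i : ℤ × ℤ) (z : ℂ) :
    ‖fderiv ℝ (Bc s i) z‖ ≤ 2 * lipM / s := by
  have hL : LipschitzWith (2 * lipM / s.toNNReal) (Bc s i) := by
    refine LipschitzWith.of_dist_le_mul fun z w => ?_
    rw [dist_eq_norm, dist_eq_norm]
    unfold Bc
    rw [← Complex.ofReal_sub, Complex.norm_real, Real.norm_eq_abs]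
    refine (Bf_lip hs i z w).trans (le_of_eq ?_)
    rw [NNReal.coe_div, NNReal.coe_mul, Real.coe_toNNReal _ hs.le]
    push_cast
    rfl
  have := norm_fderiv_le_of_lipschitz ℝ hL (x₀ := z)
  rw [NNReal.coe_div, NNReal.coe_mul, Real.coe_toNNReal _ hs.le] at this
  exact_mod_cast this

lemma fderiv_Bc_eq_zero {s : ℝ} {i : ℤ × ℤ} {z : ℂ} (hz : z ∉ cell s i) :
    fderiv ℝ (Bc s i) z = 0 := by
  have hev : Bc s i =ᶠ[nhds z] fun _ => 0 := by
    filter_upwards [(cell_isClosed s i).isOpen_compl.mem_nhds hz] with w hw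
    unfold Bc
    rw [Bf_eq_zero_of_notMem hw]
    simp
  rw [hev.fderiv_eq]
  simp

end Pool.Agent.H25.Ext
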