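import Mathlib
import Pool.Agent.H25.Ext.Grid

set_option autoImplicit false

/-! Counting grid points. -/

namespace Pool.Agent.H25.Ext

open MeasureTheory Metric
open scoped ENNReal Real NNReal

lemma gp_dist {s : ℝ} (hs : 0 < s) {i j : ℤ × ℤ} (hij : i ≠ j) : s ≤ dist (gp s i) (gp s j) := by
  rw [dist_eq_norm]
  have key : ∀ a b : ℤ, a ≠ b → s ≤ |s * a - s * b| := by
    intro a b hab
    rw [← mul_sub, abs_mul, abs_of_pos hs]
    have h1 : (1:ℝ) ≤ |(a:ℝ) - b| := by
      have : (1:ℤ) ≤ |a - b| := Int.one_le_abs (sub_ne_zero.mpr hab)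
      exact_mod_cast this
    nlinarith
  by_cases h : i.1 = j.1
  · have h2 : i.2 ≠ j.2 := fun h2 => hij (Prod.ext h h2)
    have h3 := Complex.abs_im_le_norm (gp s i - gp s j)
    rw [Complex.sub_im] at h3
    exact (key _ _ h2).trans h3
  · have h3 := Complex.abs_re_le_norm (gp s i - gp s j)
    rw [Complex.sub_re] at h3
    exact (key _ _ h).trans h3

lemma count_le {s : ℝ} (hs : 0 < s) (J : Finset (ℤ × ℤ)) (T : Set ℂ)
    (h : ∀ i ∈ J, ball (gp s i) (s / 2) ⊆ T) :
    (J.card : ℝ≥0∞) * ENNReal.ofReal (π / 4 * s ^ 2) ≤ volume T := by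
  have hdisj : (J : Set (ℤ × ℤ)).PairwiseDisjoint (fun i => ball (gp s i) (s / 2)) := by
    intro i _ j _ hij
    exact ball_disjoint_ball (by have := gp_dist hs hij; linarith)
  have h1 := measure_biUnion_finset (μ := (volume : Measure ℂ)) hdisj
    (fun i _ => measurableSet_ball)
  have h2 : (⋃ i ∈ J, ball (gp s i) (s / 2)) ⊆ T := Set.iUnion₂_subset h
  have h3 : ∀ i ∈ J, (volume : Measure ℂ) (ball (gp s i) (s / 2)) = ENNReal.ofReal (π / 4 * s ^ 2) := by
    intro i _
    have hpi : (NNReal.pi : ℝ≥0∞) = ENNReal.ofReal π := by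
      rw [ENNReal.ofReal]; congr 1
      exact (Real.toNNReal_coe (r := NNReal.pi)).symm
    rw [Complex.volume_ball, hpi, ← ENNReal.ofReal_pow (by positivity),
      ← ENNReal.ofReal_mul (by positivity)]
    congr 1
    ring
  rw [Finset.sum_congr rfl h3, Finset.sum_const, nsmul_eq_mul] at h1
  rw [← h1]
  exact measure_mono h2

/-- the elementary dyadic inequality -/
lemma dyadic_ineq (M : ℕ) {x : ℝ} (hx : 0 ≤ x) :
    1 / (1 + x) ≤ ∑ m ∈ Finset.range (M + 1), (1 / 2) ^ m * (if x ≤ 2 ^ m then (1:ℝ) else 0) +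
      (1 / 2) ^ M := by
  have hlow : ∀ M : ℕ, 0 ≤ ∑ m ∈ Finset.range (M + 1), (1 / 2 : ℝ) ^ m * (if x ≤ 2 ^ m then (1:ℝ) else 0) := by
    intro M
    refine Finset.sum_nonneg fun m _ => ?_
    split_ifs <;> positivity
  induction M with
  | zero =>
    have h1 : 1 / (1 + x) ≤ 1 := by
      rw [div_le_one (by positivity)]; linarith
    have := hlow 0
    simp only [pow_zero] at *
    linarith
  | succ M ih =>
    rw [Finset.sum_range_succ]
    by_cases hc : x ≤ 2 ^ (M + 1)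
    · rw [if_pos hc]
      have : (1 / 2 : ℝ) ^ M = (1 / 2) ^ (M + 1) * 1 + (1 / 2) ^ (M + 1) := by
        rw [pow_succ]; ring
      linarith
    · rw [if_neg hc]
      have h1 : 1 / (1 + x) ≤ (1 / 2) ^ (M + 1) := by
        rw [one_div, one_div, inv_pow]
        apply inv_anti₀ (by positivity)
        linarith
      have := hlow M
      linarith

lemma sum_decay {s Θ : ℝ} (hs : 0 < s) (J : Finset (ℤ × ℤ)) (c : ℂ) (M : ℕ)
    (h1 : ∀ m : ℕ, ((J.filter fun i => ‖gp s i - c‖ ≤ 2 ^ m * s).card : ℝ) ≤ Θ * 2 ^ m)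
    (h2 : (J.card : ℝ) ≤ Θ * 2 ^ M) :
    ∑ i ∈ J, s / (s + ‖gp s i - c‖) ≤ Θ * (M + 2) := by
  calc ∑ i ∈ J, s / (s + ‖gp s i - c‖)
      ≤ ∑ i ∈ J, (∑ m ∈ Finset.range (M + 1), (1 / 2) ^ m *
          (if ‖gp s i - c‖ ≤ 2 ^ m * s then (1:ℝ) else 0) + (1 / 2) ^ M) := by
        refine Finset.sum_le_sum fun i _ => ?_
        have h3 := dyadic_ineq M (x := ‖gp s i - c‖ / s) (by positivity)
        have e1 : s / (s + ‖gp s i - c‖) = 1 / (1 + ‖gp s i - c‖ / s) := by
          field_simp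
        rw [e1]
        refine h3.trans (le_of_eq ?_)
        congr 1
        refine Finset.sum_congr rfl fun m _ => ?_
        simp only [div_le_iff₀ hs]
    _ = ∑ m ∈ Finset.range (M + 1), (1 / 2) ^ m *
          ((J.filter fun i => ‖gp s i - c‖ ≤ 2 ^ m * s).card : ℝ) + (J.card : ℝ) * (1 / 2) ^ M := by
        rw [Finset.sum_add_distrib, Finset.sum_comm, Finset.sum_const, nsmul_eq_mul]
        congr 1
        refine Finset.sum_congr rfl fun m _ => ?_
        rw [← Finset.mul_sum, Finset.sum_boole]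
    _ ≤ ∑ m ∈ Finset.range (M + 1), Θ + Θ := by
        refine add_le_add ?_ ?_
        · refine Finset.sum_le_sum fun m _ => ?_
          calc (1 / 2 : ℝ) ^ m * ((J.filter fun i => ‖gp s i - c‖ ≤ 2 ^ m * s).card : ℝ)
              ≤ (1 / 2) ^ m * (Θ * 2 ^ m) := by gcongr; exact h1 m
            _ = Θ * ((1 / 2) ^ m * 2 ^ m) := by ring
            _ = Θ := by rw [← mul_pow]; norm_num
        · calc (J.card : ℝ) * (1 / 2) ^ M ≤ (Θ * 2 ^ M) * (1 / 2) ^ M := by gcongr
            _ = Θ * ((1 / 2) ^ M * 2 ^ M) := by ring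
            _ = Θ := by rw [← mul_pow]; norm_num
    _ = _ := by
        rw [Finset.sum_const, Finset.card_range, nsmul_eq_mul]
        push_cast
        ring

end Pool.Agent.H25.Ext
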