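import Mathlib
import Pool.Agent.H25.Ext.Basic

set_option autoImplicit false

/-! Integration by parts against the Gaussian phase. -/

namespace Pool.Agent.H25.Ext

open MeasureTheory
open scoped ENNReal Real ComplexConjugate

/-- the Cauchy-Riemann operator -/
noncomputable def dbar (f : ℂ → ℂ) (z : ℂ) : ℂ :=
  (fderiv ℝ f z 1 + Complex.I * fderiv ℝ f z Complex.I) / 2

/-- the phase centred at `c` -/
noncomputable def psi (t : ℝ) (c z : ℂ) : ℂ :=
  Complex.exp (-(Complex.I * ((t * ‖z - c‖ ^ 2 : ℝ) : ℂ)))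

/-- `(e^w-1)/w` -/
noncomputable def Phi (w : ℂ) : ℂ := dslope Complex.exp 0 w

lemma Phi_mul (w : ℂ) : w * Phi w = Complex.exp w - 1 := by
  have h := sub_smul_dslope Complex.exp 0 w
  rw [sub_zero, smul_eq_mul, Complex.exp_zero] at h
  exact h

lemma Phi_differentiable : Differentiable ℂ Phi := by
  have h : DifferentiableOn ℂ (dslope Complex.exp 0) Set.univ :=
    (Complex.differentiableOn_dslope Filter.univ_mem).mpr Complex.differentiable_exp.differentiableOn
  exact differentiableOn_univ.mp h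

lemma Phi_contDiff : ContDiff ℝ 1 Phi := by
  have h : ContDiff ℂ 1 Phi := Phi_differentiable.contDiff
  exact h.restrict_scalars ℝ

/-- `∂̄ G = psi` -/
noncomputable def Gf (t : ℝ) (c z : ℂ) : ℂ :=
  conj (z - c) * Phi (-(Complex.I * ((t * ‖z - c‖ ^ 2 : ℝ) : ℂ)))

lemma Gf_mul {t : ℝ} (ht : t ≠ 0) (c z : ℂ) :
    (z - c) * Gf t c z = (Complex.I / t) * (psi t c z - 1) := by
  have htc : (t : ℂ) ≠ 0 := by exact_mod_cast ht
  have h := Phi_mul (-(Complex.I * ((t * ‖z - c‖ ^ 2 : ℝ) : ℂ)))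
  unfold Gf psi
  rw [← h, ← mul_assoc, Complex.mul_conj']
  push_cast
  field_simp
  ring_nf
  rw [Complex.I_sq]
  ring

lemma norm_psi (t : ℝ) (c z : ℂ) : ‖psi t c z‖ = 1 := norm_exp_ph _

lemma norm_Gf_le {t : ℝ} (ht : t ≠ 0) {c z : ℂ} (hz : z ≠ c) :
    ‖Gf t c z‖ ≤ 2 / |t| * ‖z - c‖⁻¹ := by
  have h := congrArg norm (Gf_mul ht c z)
  rw [norm_mul, norm_mul, norm_div, Complex.norm_I, Complex.norm_real, Real.norm_eq_abs] at h
  have h0 : 0 < ‖z - c‖ := norm_pos_iff.mpr (sub_ne_zero.mpr hz)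
  have h1 : ‖psi t c z - 1‖ ≤ 2 := by
    refine (norm_sub_le _ _).trans ?_
    rw [norm_psi, norm_one]; norm_num
  have ht' : 0 < |t| := abs_pos.mpr ht
  have h2 : ‖Gf t c z‖ = 1 / |t| * ‖psi t c z - 1‖ * ‖z - c‖⁻¹ := by
    rw [← h]; field_simp
  rw [h2]
  have : 1 / |t| * ‖psi t c z - 1‖ ≤ 2 / |t| := by
    rw [div_mul_eq_mul_div, one_mul]
    gcongr
  gcongr

lemma nsq_contDiff (t : ℝ) (c : ℂ) :
    ContDiff ℝ 1 (fun z : ℂ => -(Complex.I * ((t * ‖z - c‖ ^ 2 : ℝ) : ℂ))) := by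
  have h1 : ContDiff ℝ 1 (fun z : ℂ => (t * ‖z - c‖ ^ 2 : ℝ)) := by
    refine contDiff_const.mul ?_
    exact (contDiff_id.sub contDiff_const).norm_sq ℝ
  have h2 : ContDiff ℝ 1 (fun z : ℂ => ((t * ‖z - c‖ ^ 2 : ℝ) : ℂ)) :=
    Complex.ofRealCLM.contDiff.comp h1
  exact (contDiff_const.mul h2).neg

lemma psi_contDiff (t : ℝ) (c : ℂ) : ContDiff ℝ 1 (psi t c) := by
  have h0 : ContDiff ℂ 1 Complex.exp := Complex.contDiff_exp
  have h : ContDiff ℝ 1 Complex.exp := h0.restrict_scalars ℝ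
  exact h.comp (nsq_contDiff t c)

lemma Gf_contDiff (t : ℝ) (c : ℂ) : ContDiff ℝ 1 (Gf t c) := by
  unfold Gf
  refine ContDiff.mul ?_ (Phi_contDiff.comp (nsq_contDiff t c))
  exact Complex.conjCLE.contDiff.comp (contDiff_id.sub contDiff_const)

lemma fderiv_psi (t : ℝ) (c z v : ℂ) :
    fderiv ℝ (psi t c) z v =
      psi t c z * (-(Complex.I * ((t * (2 * inner ℝ (z - c) v) : ℝ) : ℂ))) := by
  have h1 := (((hasFDerivAt_id (𝕜 := ℝ) z).sub_const c).norm_sq)
  have h2 := (h1.const_mul t)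
  have h3 : HasFDerivAt (fun z : ℂ => ((t * ‖z - c‖ ^ 2 : ℝ) : ℂ)) _ z :=
    Complex.ofRealCLM.hasFDerivAt.comp z h2
  have h4 := (h3.const_mul Complex.I).neg.cexp
  have h5 : fderiv ℝ (psi t c) z = _ := h4.fderiv
  rw [h5]
  simp [psi, -Complex.inner, inner_sub_left]

lemma dbar_Gf {t : ℝ} (ht : t ≠ 0) {c z : ℂ} (hz : z ≠ c) : dbar (Gf t c) z = psi t c z := by
  have htc : (t : ℂ) ≠ 0 := by exact_mod_cast ht
  have hG : HasFDerivAt (Gf t c) (fderiv ℝ (Gf t c) z) z :=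
    ((Gf_contDiff t c).differentiable one_ne_zero z).hasFDerivAt
  have hP : HasFDerivAt (psi t c) (fderiv ℝ (psi t c) z) z :=
    ((psi_contDiff t c).differentiable one_ne_zero z).hasFDerivAt
  have h1 := ((hasFDerivAt_id (𝕜 := ℝ) z).sub_const c).mul hG
  have h2 := (hP.sub_const 1).const_mul (Complex.I / t)
  have h3 : (fun z : ℂ => (id z - c) * Gf t c z) = fun z => (Complex.I / t) * (psi t c z - 1) := by
    funext w
    exact Gf_mul ht c w
  have h1' : HasFDerivAt (fun z : ℂ => (id z - c) * Gf t c z) _ z := h1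
  rw [h3] at h1'
  have h4 := h1'.unique h2
  have e1 := congrArg (fun L : ℂ →L[ℝ] ℂ => L 1) h4
  have e2 := congrArg (fun L : ℂ →L[ℝ] ℂ => L Complex.I) h4
  simp only [add_apply, smul_apply, fderiv_psi] at e1 e2
  have hi1 : inner ℝ (z - c) (1 : ℂ) = (z - c).re := by
    rw [Complex.inner]; simp
  have hi2 : inner ℝ (z - c) Complex.I = (z - c).im := by
    rw [Complex.inner]; simp; ring
  rw [hi1] at e1
  rw [hi2] at e2
  simp only [id_eq, smul_eq_mul, ContinuousLinearMap.id_apply] at e1 e2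
  have hne : z - c ≠ 0 := sub_ne_zero.mpr hz
  have key : (z - c) * dbar (Gf t c) z = (z - c) * psi t c z := by
    unfold dbar
    have hI : Complex.I * Complex.I = -1 := Complex.I_mul_I
    have hzc : z - c = ((z - c).re : ℂ) + ((z - c).im : ℂ) * Complex.I := (Complex.re_add_im _).symm
    have e3 : (z - c) * ((fderiv ℝ (Gf t c) z 1 + Complex.I * fderiv ℝ (Gf t c) z Complex.I) / 2)
        = (((z - c) * fderiv ℝ (Gf t c) z 1 + Gf t c z * 1) + Complex.I *
          ((z - c) * fderiv ℝ (Gf t c) z Complex.I + Gf t c z * Complex.I)) / 2 := by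
      linear_combination (-Gf t c z / 2) * hI
    have e4 : ∀ x : ℝ, Complex.I / (t : ℂ) * (psi t c z * -(Complex.I * ((t * (2 * x) : ℝ) : ℂ))) =
        2 * x * psi t c z := by
      intro x
      push_cast
      field_simp
      rw [Complex.I_sq]
      ring
    rw [e3, e1, e2, e4, e4]
    conv_rhs => rw [hzc]
    ring
  exact mul_left_cancel₀ hne key

lemma dbar_continuous {g : ℂ → ℂ} (hg : ContDiff ℝ 1 g) : Continuous (dbar g) := by
  have h := hg.continuous_fderiv one_ne_zero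
  unfold dbar
  fun_prop

/-- integration by parts -/
lemma osc_eq {g : ℂ → ℂ} (hg : ContDiff ℝ 1 g) (hs : HasCompactSupport g) {t : ℝ} (ht : t ≠ 0)
    (c : ℂ) : ∫ z, psi t c z * g z = -∫ z, dbar g z * Gf t c z := by
  have hG := Gf_contDiff t c
  have hGc : Continuous (Gf t c) := hG.continuous
  have hgc : Continuous g := hg.continuous
  have hg' := hg.continuous_fderiv one_ne_zero
  have hG' := hG.continuous_fderiv one_ne_zero
  have key : ∀ v : ℂ, ∫ z, g z * fderiv ℝ (Gf t c) z v = -∫ z, fderiv ℝ g z v * Gf t c z ∧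
      Integrable (fun z => g z * fderiv ℝ (Gf t c) z v) ∧
      Integrable (fun z => fderiv ℝ g z v * Gf t c z) := by
    intro v
    have i1 : Integrable (fun z => g z * fderiv ℝ (Gf t c) z v) := by
      refine Continuous.integrable_of_hasCompactSupport (by fun_prop) ?_
      exact hs.mul_right
    have i2 : Integrable (fun z => fderiv ℝ g z v * Gf t c z) := by
      refine Continuous.integrable_of_hasCompactSupport (by fun_prop) ?_
      exact (hs.fderiv_apply (𝕜 := ℝ) v).mul_right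
    have i3 : Integrable (fun z => g z * Gf t c z) := by
      refine Continuous.integrable_of_hasCompactSupport (by fun_prop) ?_
      exact hs.mul_right
    refine ⟨?_, i1, i2⟩
    exact integral_mul_fderiv_eq_neg_fderiv_mul_of_integrable i2 i1 i3
      (fun x _ => hg.differentiable one_ne_zero x) (fun x _ => hG.differentiable one_ne_zero x)
  obtain ⟨a1, a2, a3⟩ := key 1
  obtain ⟨b1, b2, b3⟩ := key Complex.I
  have e1 : ∫ z, psi t c z * g z = ∫ z, g z * dbar (Gf t c) z := by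
    refine integral_congr_ae ?_
    have hne : ∀ᵐ z : ℂ, z ≠ c := by
      have : (volume : Measure ℂ) {c} = 0 := measure_singleton c
      exact compl_mem_ae_iff.mpr this
    filter_upwards [hne] with z hz
    rw [dbar_Gf ht hz, mul_comm]
  have e2 : ∫ z, g z * dbar (Gf t c) z =
      ((∫ z, g z * fderiv ℝ (Gf t c) z 1) + Complex.I * ∫ z, g z * fderiv ℝ (Gf t c) z Complex.I) / 2 := by
    rw [← integral_const_mul, ← integral_add a2 (b2.const_mul _), ← integral_div]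
    congr 1
    funext z
    unfold dbar
    ring
  have e3 : ∫ z, dbar g z * Gf t c z =
      ((∫ z, fderiv ℝ g z 1 * Gf t c z) + Complex.I * ∫ z, fderiv ℝ g z Complex.I * Gf t c z) / 2 := by
    rw [← integral_const_mul, ← integral_add a3 (b3.const_mul _), ← integral_div]
    congr 1
    funext z
    unfold dbar
    ring
  rw [e1, e2, e3, a1, b1]
  ring

lemma enorm_osc_le {g : ℂ → ℂ} (hg : ContDiff ℝ 1 g) (hs : HasCompactSupport g) {t : ℝ}
    (ht : t ≠ 0) (c : ℂ) :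
    ‖∫ z, psi t c z * g z‖ₑ ≤ ENNReal.ofReal (2 / |t|) * ∫⁻ z, ‖dbar g z‖ₑ * ‖z - c‖ₑ⁻¹ := by
  rw [osc_eq hg hs ht c, enorm_neg]
  refine (enorm_integral_le_lintegral_enorm _).trans ?_
  rw [← lintegral_const_mul' _ _ ENNReal.ofReal_ne_top]
  refine lintegral_mono_ae ?_
  have hne : ∀ᵐ z : ℂ, z ≠ c := by
    have : (volume : Measure ℂ) {c} = 0 := measure_singleton c
    exact compl_mem_ae_iff.mpr this
  filter_upwards [hne] with z hz
  have h0 : 0 < ‖z - c‖ := norm_pos_iff.mpr (sub_ne_zero.mpr hz)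
  have h1 : ‖Gf t c z‖ₑ ≤ ENNReal.ofReal (2 / |t|) * ‖z - c‖ₑ⁻¹ := by
    rw [← ofReal_norm (z - c), ← ENNReal.ofReal_inv_of_pos h0,
      ← ENNReal.ofReal_mul (by positivity), ← ofReal_norm]
    exact ENNReal.ofReal_le_ofReal (norm_Gf_le ht hz)
  rw [enorm_mul]
  calc ‖dbar g z‖ₑ * ‖Gf t c z‖ₑ ≤ ‖dbar g z‖ₑ * (ENNReal.ofReal (2 / |t|) * ‖z - c‖ₑ⁻¹) := by
        gcongr
    _ = _ := by ring

lemma norm_ext_eq {g : ℂ → ℂ} {t : ℝ} (ht : t ≠ 0) (ζ : ℂ) :
    ‖ext g ζ t‖ₑ = ‖∫ z, psi t (-(ζ / (2 * t))) z * g z‖ₑ := by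
  have e : ∀ z, Complex.exp (-(Complex.I * (ph ζ t z : ℂ))) * g z =
      Complex.exp (-(Complex.I * ((-(‖ζ‖ ^ 2 / (4 * t)) : ℝ) : ℂ))) *
        (psi t (-(ζ / (2 * t))) z * g z) := by
    intro z
    rw [← mul_assoc]
    congr 1
    unfold psi
    rw [← Complex.exp_add]
    congr 1
    have h : ph ζ t z = -(‖ζ‖ ^ 2 / (4 * t)) + t * ‖z - (-(ζ / (2 * t)))‖ ^ 2 := by
      have h1 : ‖z - (-(ζ / (2 * t)))‖ ^ 2 = (z.re + ζ.re / (2 * t)) ^ 2 + (z.im + ζ.im / (2 * t)) ^ 2 := by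
        rw [← Complex.normSq_eq_norm_sq, Complex.normSq_apply]
        have hc : (2 * (t : ℂ)) = ((2 * t : ℝ) : ℂ) := by push_cast; ring
        rw [hc, sub_neg_eq_add, Complex.add_re, Complex.add_im, Complex.div_ofReal_re,
          Complex.div_ofReal_im]
        ring
      have h2 : ‖ζ‖ ^ 2 = ζ.re ^ 2 + ζ.im ^ 2 := by
        rw [← Complex.normSq_eq_norm_sq, Complex.normSq_apply]; ring
      rw [h1, h2]
      unfold ph
      field_simp
      ring
    rw [h]
    push_cast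
    ring
  unfold ext
  simp_rw [e]
  rw [integral_const_mul, enorm_mul]
  have : ‖Complex.exp (-(Complex.I * ((-(‖ζ‖ ^ 2 / (4 * t)) : ℝ) : ℂ)))‖ₑ = 1 := by
    rw [← ofReal_norm, norm_exp_ph, ENNReal.ofReal_one]
  rw [this, one_mul]

end Pool.Agent.H25.Ext
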