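import Mathlib
import Pool.Agent.H25.Ext.Basic

set_option autoImplicit false

/-! Potential estimates in the plane. -/

namespace Pool.Agent.H25.Ext

open MeasureTheory Metric
open scoped ENNReal Real

/-- the integral of `|z|^{-p}` over the unit disc -/
noncomputable def kap (p : ℝ) : ℝ≥0∞ := ∫⁻ z in ball (0 : ℂ) 1, (‖z‖ₑ⁻¹) ^ p

lemma inv_enorm_rpow {z : ℂ} (hz : z ≠ 0) (p : ℝ) :
    (‖z‖ₑ⁻¹) ^ p = ENNReal.ofReal (‖z‖ ^ (-p)) := by
  have h0 : 0 < ‖z‖ := norm_pos_iff.mpr hz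
  rw [← ofReal_norm, ← ENNReal.ofReal_inv_of_pos h0,
    ENNReal.ofReal_rpow_of_pos (inv_pos.mpr h0), Real.rpow_neg h0.le, Real.inv_rpow h0.le]

lemma kap_lt_top {p : ℝ} (hp : p < 2) : kap p < ⊤ := by
  have h1 : IntegrableOn (fun z : ℂ => ‖z‖ ^ (-p)) (ball 0 1) := by
    refine integrableOn_ball_of_norm_le_rpow (C := 1) (α := p) ?_ ?_ ?_ ?_
    · rw [Complex.finrank_real_complex]; norm_num
    · rw [Complex.finrank_real_complex]; exact_mod_cast hp
    · refine Filter.Eventually.of_forall fun z => ?_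
      rw [one_mul, Real.norm_of_nonneg (Real.rpow_nonneg (norm_nonneg _) _)]
    · have : Measurable (fun z : ℂ => ‖z‖ ^ (-p)) := by fun_prop
      exact this.aestronglyMeasurable
  have h2 := h1.lintegral_lt_top
  refine lt_of_le_of_lt (le_of_eq ?_) h2
  unfold kap
  refine lintegral_congr_ae ?_
  have hne : ∀ᵐ z : ℂ, z ≠ 0 := by
    have : (volume : Measure ℂ) {(0 : ℂ)} = 0 := measure_singleton _
    exact compl_mem_ae_iff.mpr this
  filter_upwards [ae_restrict_of_ae hne] with z hz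
  rw [inv_enorm_rpow hz]

lemma pot_ball {p : ℝ} (hp0 : 0 < p) (c : ℂ) {R : ℝ} (hR : 0 < R) :
    ∫⁻ z in ball c R, (‖z - c‖ₑ⁻¹) ^ p = ENNReal.ofReal (R ^ (2 - p)) * kap p := by
  have h1 : ∫⁻ z in ball c R, (‖z - c‖ₑ⁻¹) ^ p = ∫⁻ z in ball (0 : ℂ) R, (‖z‖ₑ⁻¹) ^ p := by
    rw [← lintegral_indicator measurableSet_ball, ← lintegral_indicator measurableSet_ball,
      ← lintegral_sub_right_eq_self ((ball (0 : ℂ) R).indicator fun z => (‖z‖ₑ⁻¹) ^ p) c]
    congr 1
    funext z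
    simp only [Set.indicator, mem_ball, dist_eq_norm, sub_zero]
  rw [h1]
  have h2 := lintegral_scale (fun z : ℂ => (ball (0 : ℂ) R).indicator (fun z => (‖z‖ₑ⁻¹) ^ p) z) hR
  rw [lintegral_indicator measurableSet_ball] at h2
  have h3 : ∀ z : ℂ, (ball (0 : ℂ) R).indicator (fun z => (‖z‖ₑ⁻¹) ^ p) (R • z) =
      ENNReal.ofReal (R ^ (-p)) * (ball (0 : ℂ) 1).indicator (fun z => (‖z‖ₑ⁻¹) ^ p) z := by
    intro z
    have hm : R • z ∈ ball (0 : ℂ) R ↔ z ∈ ball (0 : ℂ) 1 := by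
      rw [mem_ball_zero_iff, mem_ball_zero_iff, norm_smul, Real.norm_of_nonneg hR.le]
      constructor
      · intro h; nlinarith
      · intro h; nlinarith
    by_cases hz : z ∈ ball (0 : ℂ) 1
    · rw [Set.indicator_of_mem hz, Set.indicator_of_mem (hm.mpr hz)]
      have e : ‖R • z‖ₑ = ENNReal.ofReal R * ‖z‖ₑ := by
        rw [enorm_smul, Real.enorm_eq_ofReal hR.le]
      have hR0 : ENNReal.ofReal R ≠ 0 := by simpa using hR
      rw [e, ENNReal.mul_inv (Or.inl hR0) (Or.inl ENNReal.ofReal_ne_top),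
        ENNReal.mul_rpow_of_nonneg _ _ hp0.le, ← ENNReal.ofReal_inv_of_pos hR,
        ENNReal.ofReal_rpow_of_pos (inv_pos.mpr hR), Real.rpow_neg hR.le, Real.inv_rpow hR.le]
    · rw [Set.indicator_of_notMem hz, Set.indicator_of_notMem (fun h => hz (hm.mp h)), mul_zero]
  simp_rw [h3] at h2
  rw [lintegral_const_mul' _ _ ENNReal.ofReal_ne_top, lintegral_indicator measurableSet_ball] at h2
  have hR2 : ENNReal.ofReal ((R ^ 2)⁻¹) ≠ 0 := by
    simp only [ne_eq, ENNReal.ofReal_eq_zero, not_le]; positivity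
  have h4 : ENNReal.ofReal ((R ^ 2)⁻¹) * ∫⁻ z in ball (0 : ℂ) R, (‖z‖ₑ⁻¹) ^ p =
      ENNReal.ofReal ((R ^ 2)⁻¹) * (ENNReal.ofReal (R ^ (2 - p)) * kap p) := by
    rw [← h2, ← mul_assoc, ← ENNReal.ofReal_mul (by positivity)]
    unfold kap
    congr 2
    rw [← Real.rpow_natCast R 2, ← Real.rpow_neg hR.le, ← Real.rpow_add hR]
    congr 1
    push_cast
    ring
  exact (ENNReal.mul_right_inj hR2 ENNReal.ofReal_ne_top).mp h4

lemma pot_bound {p : ℝ} (hp0 : 0 < p) (hp : p < 2) : ∃ C : ℝ, 0 < C ∧ ∀ (s : ℝ), 0 < s →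
    ∀ z0 c : ℂ, ∫⁻ z in closedBall z0 (2 * s), (‖z - c‖ₑ⁻¹) ^ p ≤
      ENNReal.ofReal (C * s ^ 2 * (s + ‖z0 - c‖) ^ (-p)) := by
  set κ : ℝ := (kap p).toReal with hκ
  have hκe : ENNReal.ofReal κ = kap p := ENNReal.ofReal_toReal (kap_lt_top hp).ne
  have hκ0 : 0 ≤ κ := ENNReal.toReal_nonneg
  refine ⟨7 ^ (2 - p) * κ * 5 ^ p + 4 * π * (5 / 2) ^ p, by positivity, ?_⟩
  intro s hs z0 c
  rcases lt_or_ge ‖z0 - c‖ (4 * s) with hlt | hge
  · have hsub : closedBall z0 (2 * s) ⊆ ball c (7 * s) := by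
      intro z hz
      rw [mem_closedBall, dist_eq_norm] at hz
      rw [mem_ball, dist_eq_norm]
      have : z - c = (z - z0) + (z0 - c) := by ring
      rw [this]
      refine (norm_add_le _ _).trans_lt ?_
      linarith
    calc ∫⁻ z in closedBall z0 (2 * s), (‖z - c‖ₑ⁻¹) ^ p
        ≤ ∫⁻ z in ball c (7 * s), (‖z - c‖ₑ⁻¹) ^ p := lintegral_mono_set hsub
      _ = ENNReal.ofReal ((7 * s) ^ (2 - p)) * kap p := pot_ball hp0 c (by positivity)
      _ = ENNReal.ofReal ((7 * s) ^ (2 - p) * κ) := by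
          rw [← hκe, ← ENNReal.ofReal_mul (by positivity)]
      _ ≤ _ := by
          apply ENNReal.ofReal_le_ofReal
          have e1 : (7 * s) ^ (2 - p) = 7 ^ (2 - p) * s ^ (2 - p) := Real.mul_rpow (by norm_num) hs.le
          have e2 : s ^ (2 - p) = s ^ 2 * s ^ (-p) := by
            rw [← Real.rpow_natCast s 2, ← Real.rpow_add hs]; congr 1
          have e3 : s ^ (-p) ≤ 5 ^ p * (s + ‖z0 - c‖) ^ (-p) := by
            have h5 : (5 * s) ^ (-p) ≤ (s + ‖z0 - c‖) ^ (-p) := by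
              apply Real.rpow_le_rpow_of_nonpos
              · have := norm_nonneg (z0 - c); positivity
              · linarith
              · linarith
            rw [Real.mul_rpow (by norm_num) hs.le, Real.rpow_neg (by norm_num : (0:ℝ) ≤ 5)] at h5
            have h6 : (0:ℝ) < 5 ^ p := by positivity
            calc s ^ (-p) = 5 ^ p * ((5 ^ p)⁻¹ * s ^ (-p)) := by
                  field_simp
              _ ≤ _ := by gcongr
          have hx : 0 ≤ (s + ‖z0 - c‖) ^ (-p) := by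
            apply Real.rpow_nonneg; have := norm_nonneg (z0 - c); positivity
          calc (7 * s) ^ (2 - p) * κ = 7 ^ (2 - p) * κ * s ^ 2 * s ^ (-p) := by rw [e1, e2]; ring
            _ ≤ 7 ^ (2 - p) * κ * s ^ 2 * (5 ^ p * (s + ‖z0 - c‖) ^ (-p)) := by gcongr
            _ ≤ _ := by
                have : 0 ≤ 4 * π * (5 / 2) ^ p * s ^ 2 * (s + ‖z0 - c‖) ^ (-p) := by positivity
                nlinarith
  · have hpt : ∀ z ∈ closedBall z0 (2 * s), (‖z - c‖ₑ⁻¹) ^ p ≤
        ENNReal.ofReal ((5 / 2) ^ p * (s + ‖z0 - c‖) ^ (-p)) := by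
      intro z hz
      rw [mem_closedBall, dist_eq_norm] at hz
      have h1 : ‖z0 - c‖ ≤ ‖z - z0‖ + ‖z - c‖ := by
        have : z0 - c = -(z - z0) + (z - c) := by ring
        rw [this]
        refine (norm_add_le _ _).trans ?_
        rw [norm_neg]
      have h2 : (2 / 5) * (s + ‖z0 - c‖) ≤ ‖z - c‖ := by linarith
      have h3 : 0 < (2 / 5) * (s + ‖z0 - c‖) := by
        have := norm_nonneg (z0 - c); positivity
      have hz0 : z - c ≠ 0 := norm_pos_iff.mp (lt_of_lt_of_le h3 h2)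
      rw [inv_enorm_rpow hz0]
      apply ENNReal.ofReal_le_ofReal
      have h4 : ‖z - c‖ ^ (-p) ≤ ((2 / 5) * (s + ‖z0 - c‖)) ^ (-p) :=
        Real.rpow_le_rpow_of_nonpos h3 h2 (by linarith)
      refine h4.trans (le_of_eq ?_)
      rw [Real.mul_rpow (by norm_num) (by have := norm_nonneg (z0 - c); positivity)]
      congr 1
      rw [Real.rpow_neg (by norm_num), ← Real.inv_rpow (by norm_num)]
      congr 1
      norm_num
    calc ∫⁻ z in closedBall z0 (2 * s), (‖z - c‖ₑ⁻¹) ^ p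
        ≤ ∫⁻ z in closedBall z0 (2 * s), ENNReal.ofReal ((5 / 2) ^ p * (s + ‖z0 - c‖) ^ (-p)) :=
          setLIntegral_mono' measurableSet_closedBall hpt
      _ = ENNReal.ofReal ((5 / 2) ^ p * (s + ‖z0 - c‖) ^ (-p)) * ENNReal.ofReal (4 * π * s ^ 2) := by
          rw [setLIntegral_const, Complex.volume_closedBall]
          congr 1
          have hpi : (NNReal.pi : ℝ≥0∞) = ENNReal.ofReal π := by
            rw [ENNReal.ofReal]; congr 1
            exact (Real.toNNReal_coe (r := NNReal.pi)).symm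
          rw [hpi, ← ENNReal.ofReal_pow (by positivity), ← ENNReal.ofReal_mul (by positivity)]
          congr 1
          ring
      _ ≤ _ := by
          have hx : 0 ≤ (s + ‖z0 - c‖) ^ (-p) := by
            apply Real.rpow_nonneg; have := norm_nonneg (z0 - c); positivity
          rw [← ENNReal.ofReal_mul (by positivity)]
          apply ENNReal.ofReal_le_ofReal
          have : 0 ≤ 7 ^ (2 - p) * κ * 5 ^ p * s ^ 2 * (s + ‖z0 - c‖) ^ (-p) := by positivity
          nlinarith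

end Pool.Agent.H25.Ext
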