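import Mathlib
import Pool.Agent.H25.Ext.Osc
import Pool.Agent.H25.Ext.Potential

set_option autoImplicit false

/-! Estimates for one localized piece. -/

namespace Pool.Agent.H25.Ext

open MeasureTheory Metric
open scoped ENNReal Real

lemma rpow_inv_le {q a s : ℝ} (hq : 0 < q) (hs : 0 < s) (ha : 0 ≤ a) {X : ℝ≥0∞}
    (h : X ≤ ENNReal.ofReal (s ^ 2 * a ^ q)) : X ^ (1 / q) ≤ ENNReal.ofReal (s ^ (2 / q) * a) := by
  calc X ^ (1 / q) ≤ (ENNReal.ofReal (s ^ 2 * a ^ q)) ^ (1 / q) :=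
        ENNReal.rpow_le_rpow h (by positivity)
    _ = ENNReal.ofReal ((s ^ 2 * a ^ q) ^ (1 / q)) :=
        ENNReal.ofReal_rpow_of_nonneg (by positivity) (by positivity)
    _ = ENNReal.ofReal (s ^ (2 / q) * a) := by
        congr 1
        rw [Real.mul_rpow (by positivity) (by positivity), ← Real.rpow_natCast s 2,
          ← Real.rpow_mul hs.le, ← Real.rpow_mul ha]
        congr 2
        · push_cast; ring
        · rw [mul_one_div_cancel hq.ne', Real.rpow_one]

/-- trivial bound -/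
lemma piece_triv {q : ℝ} (hq : 3 < q) {s a : ℝ} (hs : 0 < s) (ha : 0 ≤ a) {g : ℂ → ℂ}
    (hg : Continuous g) {z0 : ℂ} (hsupp : ∀ z, z ∉ closedBall z0 (2 * s) → g z = 0)
    (h0 : ∫⁻ z, ‖g z‖ₑ ^ q ≤ ENNReal.ofReal (s ^ 2 * a ^ q)) (ζ : ℂ) (t : ℝ) :
    ‖ext g ζ t‖ₑ ≤ ENNReal.ofReal (4 * π * s ^ 2 * a) := by
  have hq0 : 0 < q := by linarith
  have h1 : ‖ext g ζ t‖ₑ ≤ ∫⁻ z, ‖g z‖ₑ := by
    unfold ext
    refine (enorm_integral_le_lintegral_enorm _).trans (le_of_eq ?_)
    congr 1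
    funext z
    rw [enorm_mul, ← ofReal_norm (Complex.exp _), norm_exp_ph, ENNReal.ofReal_one, one_mul]
  have h2 : ∫⁻ z, ‖g z‖ₑ = ∫⁻ z, ‖g z‖ₑ * (closedBall z0 (2 * s)).indicator 1 z := by
    congr 1
    funext z
    by_cases hz : z ∈ closedBall z0 (2 * s)
    · rw [Set.indicator_of_mem hz]; simp
    · rw [Set.indicator_of_notMem hz, hsupp z hz]; simp
  set q' := q / (q - 1) with hq'
  have hconj : q.HolderConjugate q' := by
    rw [Real.holderConjugate_iff]
    refine ⟨by linarith, ?_⟩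
    rw [hq']
    have : q - 1 ≠ 0 := by linarith
    field_simp
    ring
  have hq'0 : 0 < q' := hconj.symm.pos
  have h3 := ENNReal.lintegral_mul_le_Lp_mul_Lq volume hconj (f := fun z => ‖g z‖ₑ)
    (g := (closedBall z0 (2 * s)).indicator 1) hg.enorm.measurable.aemeasurable
    ((measurable_one.indicator measurableSet_closedBall).aemeasurable)
  simp only [Pi.mul_apply] at h3
  have hpi : (NNReal.pi : ℝ≥0∞) = ENNReal.ofReal π := by
    rw [ENNReal.ofReal]; congr 1
    exact (Real.toNNReal_coe (r := NNReal.pi)).symm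
  have h4 : ∫⁻ z : ℂ, ((closedBall z0 (2 * s)).indicator 1 z : ℝ≥0∞) ^ q' =
      ENNReal.ofReal (4 * π * s ^ 2) := by
    have e : ∀ z : ℂ, ((closedBall z0 (2 * s)).indicator 1 z : ℝ≥0∞) ^ q' =
        (closedBall z0 (2 * s)).indicator 1 z := by
      intro z
      by_cases hz : z ∈ closedBall z0 (2 * s)
      · rw [Set.indicator_of_mem hz]; simp
      · rw [Set.indicator_of_notMem hz, ENNReal.zero_rpow_of_pos hq'0]
    simp_rw [e]
    rw [lintegral_indicator_one measurableSet_closedBall, Complex.volume_closedBall, hpi,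
      ← ENNReal.ofReal_pow (by positivity), ← ENNReal.ofReal_mul (by positivity)]
    congr 1
    ring
  rw [h4] at h3
  calc ‖ext g ζ t‖ₑ ≤ ∫⁻ z, ‖g z‖ₑ := h1
    _ = _ := h2
    _ ≤ _ := h3
    _ ≤ ENNReal.ofReal (s ^ (2 / q) * a) * (ENNReal.ofReal (4 * π * s ^ 2)) ^ (1 / q') := by
        gcongr
        exact rpow_inv_le hq0 hs ha h0
    _ = ENNReal.ofReal (s ^ (2 / q) * a * (4 * π * s ^ 2) ^ (1 / q')) := by
        rw [ENNReal.ofReal_rpow_of_nonneg (by positivity) (by positivity),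
          ← ENNReal.ofReal_mul (by positivity)]
    _ ≤ _ := by
        apply ENNReal.ofReal_le_ofReal
        have e1 : (4 * π * s ^ 2) ^ (1 / q') = (4 * π) ^ (1 / q') * s ^ (2 / q') := by
          rw [Real.mul_rpow (by positivity) (by positivity), ← Real.rpow_natCast s 2,
            ← Real.rpow_mul hs.le]
          congr 2
          push_cast; ring
        have e2 : (4 * π) ^ (1 / q') ≤ 4 * π := by
          have h5 : (1:ℝ) ≤ 4 * π := by have := Real.pi_gt_three; linarith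
          have h6 : 1 / q' ≤ 1 := by
            rw [div_le_one hq'0]; exact hconj.symm.lt.le
          calc (4 * π) ^ (1 / q') ≤ (4 * π) ^ (1 : ℝ) := Real.rpow_le_rpow_of_exponent_le h5 h6
            _ = _ := Real.rpow_one _
        have e3 : s ^ (2 / q) * s ^ (2 / q') = s ^ 2 := by
          rw [← Real.rpow_add hs, ← Real.rpow_natCast s 2]
          congr 1
          have := hconj.inv_add_inv_eq_one
          push_cast
          rw [div_eq_mul_inv, div_eq_mul_inv, ← mul_add, this]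
          ring
        calc s ^ (2 / q) * a * (4 * π * s ^ 2) ^ (1 / q')
            = (4 * π) ^ (1 / q') * (s ^ (2 / q) * s ^ (2 / q')) * a := by rw [e1]; ring
          _ = (4 * π) ^ (1 / q') * s ^ 2 * a := by rw [e3]
          _ ≤ _ := by gcongr

/-- oscillatory bound -/
lemma piece_osc {q : ℝ} (hq : 3 < q) : ∃ C : ℝ, 0 < C ∧ ∀ {s a : ℝ}, 0 < s → 0 ≤ a →
    ∀ {g : ℂ → ℂ}, ContDiff ℝ 1 g → ∀ {z0 : ℂ}, (∀ z, z ∉ closedBall z0 (2 * s) → g z = 0) →
    ∫⁻ z, ‖dbar g z‖ₑ ^ q ≤ ENNReal.ofReal (s ^ 2 * (a / s) ^ q) → ∀ (ζ : ℂ) {t : ℝ}, t ≠ 0 →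
    ‖ext g ζ t‖ₑ ≤ ENNReal.ofReal (C / |t| * (s / (s + ‖z0 - (-(ζ / (2 * t)))‖)) * a) := by
  have hq0 : 0 < q := by linarith
  set q' := q / (q - 1) with hq'
  have hconj : q.HolderConjugate q' := by
    rw [Real.holderConjugate_iff]
    refine ⟨by linarith, ?_⟩
    rw [hq']
    have : q - 1 ≠ 0 := by linarith
    field_simp
    ring
  have hq'0 : 0 < q' := hconj.symm.pos
  have hq'2 : q' < 2 := by
    rw [hq', div_lt_iff₀ (by linarith)]; linarith
  obtain ⟨C, hC, hpot⟩ := pot_bound hq'0 hq'2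
  refine ⟨2 * C ^ (1 / q'), by positivity, ?_⟩
  intro s a hs ha g hg z0 hsupp h1 ζ t ht
  set c : ℂ := -(ζ / (2 * t)) with hc
  have ht0 : 0 < |t| := abs_pos.mpr ht
  have hcs : HasCompactSupport g := by
    refine HasCompactSupport.of_support_subset_isCompact (isCompact_closedBall z0 (2 * s)) ?_
    intro z hz
    by_contra h
    exact hz (hsupp z h)
  rw [norm_ext_eq ht]
  refine (enorm_osc_le hg hcs ht c).trans ?_
  have hd0 : ∀ z, z ∉ closedBall z0 (2 * s) → dbar g z = 0 := by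
    intro z hz
    have hev : g =ᶠ[nhds z] fun _ => 0 := by
      have hopen : IsOpen (closedBall z0 (2 * s))ᶜ := isClosed_closedBall.isOpen_compl
      filter_upwards [hopen.mem_nhds hz] with w hw
      exact hsupp w hw
    unfold dbar
    rw [hev.fderiv_eq]
    simp
  have h2 : ∫⁻ z, ‖dbar g z‖ₑ * ‖z - c‖ₑ⁻¹ =
      ∫⁻ z, ‖dbar g z‖ₑ * (closedBall z0 (2 * s)).indicator (fun z => ‖z - c‖ₑ⁻¹) z := by
    congr 1
    funext z
    by_cases hz : z ∈ closedBall z0 (2 * s)
    · rw [Set.indicator_of_mem hz]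
    · rw [Set.indicator_of_notMem hz, hd0 z hz]; simp
  have hdc := dbar_continuous hg
  have hm : Measurable (fun z : ℂ => ‖z - c‖ₑ⁻¹) := by fun_prop
  have h3 := ENNReal.lintegral_mul_le_Lp_mul_Lq volume hconj (f := fun z => ‖dbar g z‖ₑ)
    (g := (closedBall z0 (2 * s)).indicator (fun z => ‖z - c‖ₑ⁻¹))
    hdc.enorm.measurable.aemeasurable
    ((hm.indicator measurableSet_closedBall).aemeasurable)
  simp only [Pi.mul_apply] at h3
  have h4 : ∫⁻ z : ℂ, ((closedBall z0 (2 * s)).indicator (fun z => ‖z - c‖ₑ⁻¹) z : ℝ≥0∞) ^ q' ≤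
      ENNReal.ofReal (C * s ^ 2 * (s + ‖z0 - c‖) ^ (-q')) := by
    have e : ∀ z : ℂ, ((closedBall z0 (2 * s)).indicator (fun z => ‖z - c‖ₑ⁻¹) z : ℝ≥0∞) ^ q' =
        (closedBall z0 (2 * s)).indicator (fun z => (‖z - c‖ₑ⁻¹) ^ q') z := by
      intro z
      by_cases hz : z ∈ closedBall z0 (2 * s)
      · rw [Set.indicator_of_mem hz, Set.indicator_of_mem hz]
      · rw [Set.indicator_of_notMem hz, Set.indicator_of_notMem hz, ENNReal.zero_rpow_of_pos hq'0]
    simp_rw [e]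
    rw [lintegral_indicator measurableSet_closedBall]
    exact hpot s hs z0 c
  have hn := norm_nonneg (z0 - c)
  have h5 : (∫⁻ z : ℂ, ((closedBall z0 (2 * s)).indicator (fun z => ‖z - c‖ₑ⁻¹) z : ℝ≥0∞) ^ q')
      ^ (1 / q') ≤ ENNReal.ofReal (C ^ (1 / q') * s ^ (2 / q') * (s + ‖z0 - c‖)⁻¹) := by
    refine (ENNReal.rpow_le_rpow h4 (by positivity)).trans (le_of_eq ?_)
    rw [ENNReal.ofReal_rpow_of_nonneg (by positivity) (by positivity)]
    congr 1
    rw [Real.mul_rpow (by positivity) (by positivity), Real.mul_rpow (by positivity) (by positivity),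
      ← Real.rpow_natCast s 2, ← Real.rpow_mul hs.le, ← Real.rpow_mul (by positivity)]
    have e1 : ((2 : ℕ) : ℝ) * (1 / q') = 2 / q' := by push_cast; ring
    have e2 : -q' * (1 / q') = -1 := by field_simp
    rw [e1, e2, Real.rpow_neg_one]
  have e3 : s ^ (2 / q) * s ^ (2 / q') = s ^ 2 := by
    rw [← Real.rpow_add hs, ← Real.rpow_natCast s 2]
    congr 1
    have := hconj.inv_add_inv_eq_one
    push_cast
    rw [div_eq_mul_inv, div_eq_mul_inv, ← mul_add, this]
    ring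
  calc ENNReal.ofReal (2 / |t|) * ∫⁻ z, ‖dbar g z‖ₑ * ‖z - c‖ₑ⁻¹
      ≤ ENNReal.ofReal (2 / |t|) * (ENNReal.ofReal (s ^ (2 / q) * (a / s)) *
          ENNReal.ofReal (C ^ (1 / q') * s ^ (2 / q') * (s + ‖z0 - c‖)⁻¹)) := by
        rw [h2]
        gcongr
        refine h3.trans ?_
        gcongr
        exact rpow_inv_le hq0 hs (by positivity) h1
    _ = ENNReal.ofReal (2 / |t| * ((s ^ (2 / q) * (a / s)) *
          (C ^ (1 / q') * s ^ (2 / q') * (s + ‖z0 - c‖)⁻¹))) := by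
        rw [← ENNReal.ofReal_mul (by positivity), ← ENNReal.ofReal_mul (by positivity)]
    _ = _ := by
        congr 1
        have : (s ^ (2 / q) * (a / s)) * (C ^ (1 / q') * s ^ (2 / q') * (s + ‖z0 - c‖)⁻¹) =
            (s ^ (2 / q) * s ^ (2 / q')) * (a / s * C ^ (1 / q') * (s + ‖z0 - c‖)⁻¹) := by ring
        rw [this, e3]
        field_simp

end Pool.Agent.H25.Ext
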