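import Mathlib
import Pool.Agent.H25.Ext.Piece
import Pool.Agent.H25.Ext.Marc
import Pool.Agent.H25.Ext.Packing

set_option autoImplicit false

/-! The single-scale estimate. -/

namespace Pool.Agent.H25.Ext

open MeasureTheory Metric
open scoped ENNReal Real NNReal

lemma norm_dbar_le (f : ℂ → ℂ) (z : ℂ) : ‖dbar f z‖ ≤ ‖fderiv ℝ f z‖ := by
  unfold dbar
  rw [norm_div]
  have h1 : ‖fderiv ℝ f z 1‖ ≤ ‖fderiv ℝ f z‖ := by
    have := (fderiv ℝ f z).le_opNorm 1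
    rwa [norm_one, mul_one] at this
  have h2 : ‖Complex.I * fderiv ℝ f z Complex.I‖ ≤ ‖fderiv ℝ f z‖ := by
    rw [norm_mul, Complex.norm_I, one_mul]
    have := (fderiv ℝ f z).le_opNorm Complex.I
    rwa [Complex.norm_I, mul_one] at this
  have h3 : ‖fderiv ℝ f z 1 + Complex.I * fderiv ℝ f z Complex.I‖ ≤ 2 * ‖fderiv ℝ f z‖ := by
    refine (norm_add_le _ _).trans ?_
    linarith
  have h4 : ‖(2:ℂ)‖ = 2 := by simp
  rw [h4, div_le_iff₀ (by norm_num)]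
  linarith

lemma dbar_mul {u v : ℂ → ℂ} {z : ℂ} (hu : DifferentiableAt ℝ u z) (hv : DifferentiableAt ℝ v z) :
    dbar (fun w => u w * v w) z = u z * dbar v z + v z * dbar u z := by
  unfold dbar
  have h : fderiv ℝ (fun w => u w * v w) z = u z • fderiv ℝ v z + v z • fderiv ℝ u z :=
    (hu.hasFDerivAt.mul hv.hasFDerivAt).fderiv
  rw [h]
  simp only [add_apply, smul_apply, smul_eq_mul]
  ring

lemma sq_le_of_Lq {q : ℝ} (hq : 3 < q) {s a : ℝ} (hs : 0 < s) (ha : 0 ≤ a) {G : ℂ → ℝ≥0∞}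
    (hG : Measurable G) {Q : Set ℂ} {z0 : ℂ} (hsub : Q ⊆ closedBall z0 (2 * s))
    (h0 : ∫⁻ z in Q, G z ^ q ≤ ENNReal.ofReal (s ^ 2 * a ^ q)) :
    ∫⁻ z in Q, G z ^ (2:ℝ) ≤ ENNReal.ofReal (4 * π * s ^ 2 * a ^ 2) := by
  have hq0 : 0 < q := by linarith
  set p' := q / (q - 2) with hp'
  have hconj : (q / 2).HolderConjugate p' := by
    rw [Real.holderConjugate_iff]
    refine ⟨by linarith, ?_⟩
    rw [hp']
    have : q - 2 ≠ 0 := by linarith
    field_simp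
    ring
  have hp'0 : 0 < p' := hconj.symm.pos
  have h3 := ENNReal.lintegral_mul_le_Lp_mul_Lq (volume.restrict Q) hconj
    (f := fun z => G z ^ (2:ℝ)) (g := fun _ => 1) (hG.pow_const _).aemeasurable aemeasurable_const
  simp only [Pi.mul_apply, mul_one, ENNReal.one_rpow] at h3
  have hpi : (NNReal.pi : ℝ≥0∞) = ENNReal.ofReal π := by
    rw [ENNReal.ofReal]; congr 1
    exact (Real.toNNReal_coe (r := NNReal.pi)).symm
  have h4 : ∫⁻ _ in Q, (1:ℝ≥0∞) ≤ ENNReal.ofReal (4 * π * s ^ 2) := by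
    rw [setLIntegral_one]
    refine (measure_mono hsub).trans (le_of_eq ?_)
    rw [Complex.volume_closedBall, hpi,
      ← ENNReal.ofReal_pow (by positivity), ← ENNReal.ofReal_mul (by positivity)]
    congr 1
    ring
  have h5 : ∫⁻ z in Q, (G z ^ (2:ℝ)) ^ (q / 2) = ∫⁻ z in Q, G z ^ q := by
    congr 1
    funext z
    rw [← ENNReal.rpow_mul]
    congr 1
    ring
  rw [h5] at h3
  calc ∫⁻ z in Q, G z ^ (2:ℝ) ≤ _ := h3
    _ ≤ (ENNReal.ofReal (s ^ 2 * a ^ q)) ^ (1 / (q / 2)) * (ENNReal.ofReal (4 * π * s ^ 2)) ^ (1 / p') := by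
        gcongr
    _ = ENNReal.ofReal ((s ^ 2 * a ^ q) ^ (1 / (q / 2)) * (4 * π * s ^ 2) ^ (1 / p')) := by
        rw [ENNReal.ofReal_rpow_of_nonneg (by positivity) (by positivity),
          ENNReal.ofReal_rpow_of_nonneg (by positivity) (by positivity),
          ← ENNReal.ofReal_mul (by positivity)]
    _ ≤ _ := by
        apply ENNReal.ofReal_le_ofReal
        have e1 : (s ^ 2 * a ^ q) ^ (1 / (q / 2)) = (s ^ 2) ^ (1 / (q / 2)) * a ^ 2 := by
          rw [Real.mul_rpow (by positivity) (by positivity), ← Real.rpow_mul ha]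
          congr 1
          rw [← Real.rpow_natCast a 2]
          congr 1
          push_cast
          field_simp
        have e2 : (4 * π * s ^ 2) ^ (1 / p') = (4 * π) ^ (1 / p') * (s ^ 2) ^ (1 / p') :=
          Real.mul_rpow (by positivity) (by positivity)
        have e3 : (s ^ 2) ^ (1 / (q / 2)) * (s ^ 2) ^ (1 / p') = s ^ 2 := by
          rw [← Real.rpow_add (by positivity)]
          have := hconj.inv_add_inv_eq_one
          rw [one_div, one_div, this, Real.rpow_one]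
        have e4 : (4 * π) ^ (1 / p') ≤ 4 * π := by
          have h5 : (1:ℝ) ≤ 4 * π := by have := Real.pi_gt_three; linarith
          have h6 : 1 / p' ≤ 1 := by
            rw [div_le_one hp'0]; exact hconj.symm.lt.le
          calc (4 * π) ^ (1 / p') ≤ (4 * π) ^ (1 : ℝ) := Real.rpow_le_rpow_of_exponent_le h5 h6
            _ = _ := Real.rpow_one _
        calc (s ^ 2 * a ^ q) ^ (1 / (q / 2)) * (4 * π * s ^ 2) ^ (1 / p')
            = (4 * π) ^ (1 / p') * ((s ^ 2) ^ (1 / (q / 2)) * (s ^ 2) ^ (1 / p')) * a ^ 2 := by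
              rw [e1, e2]; ring
          _ = (4 * π) ^ (1 / p') * s ^ 2 * a ^ 2 := by rw [e3]
          _ ≤ _ := by gcongr

/-- the weight -/
noncomputable def Wf (s : ℝ) (F : ℂ → ℂ) (z : ℂ) : ℝ := ‖F z‖ + s * ‖dbar F z‖

lemma Wf_continuous (s : ℝ) {F : ℂ → ℂ} (hF : ContDiff ℝ 1 F) : Continuous (Wf s F) := by
  have h1 := hF.continuous
  have h2 := dbar_continuous hF
  unfold Wf
  fun_prop

lemma Wf_nonneg {s : ℝ} (hs : 0 ≤ s) (F : ℂ → ℂ) (z : ℂ) : 0 ≤ Wf s F z := by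
  unfold Wf; positivity

lemma cell_compact {s : ℝ} (hs : 0 < s) (i : ℤ × ℤ) : IsCompact (cell s i) :=
  (isCompact_closedBall (gp s i) (2 * s)).of_isClosed_subset (cell_isClosed s i) (cell_subset hs i)

/-- normalized size on a cell -/
noncomputable def ai (q s : ℝ) (F : ℂ → ℂ) (i : ℤ × ℤ) : ℝ :=
  ((s ^ 2)⁻¹ * ∫ z in cell s i, Wf s F z ^ q) ^ (1 / q)

lemma ai_nonneg {q s : ℝ} (hs : 0 < s) (F : ℂ → ℂ) (i : ℤ × ℤ) : 0 ≤ ai q s F i := by
  unfold ai
  refine Real.rpow_nonneg ?_ _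
  refine mul_nonneg (by positivity) ?_
  exact integral_nonneg fun z => Real.rpow_nonneg (Wf_nonneg hs.le F z) _

lemma ai_spec {q s : ℝ} (hq : 3 < q) (hs : 0 < s) {F : ℂ → ℂ} (hF : ContDiff ℝ 1 F) (i : ℤ × ℤ) :
    ∫⁻ z in cell s i, ENNReal.ofReal (Wf s F z) ^ q = ENNReal.ofReal (s ^ 2 * ai q s F i ^ q) := by
  have hq0 : 0 < q := by linarith
  have hW := Wf_continuous s hF
  have hWq : Continuous (fun z => Wf s F z ^ q) := hW.rpow_const fun z => Or.inr hq0.le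
  have hi : IntegrableOn (fun z => Wf s F z ^ q) (cell s i) :=
    hWq.continuousOn.integrableOn_compact (cell_compact hs i)
  have hnn : 0 ≤ ∫ z in cell s i, Wf s F z ^ q :=
    integral_nonneg fun z => Real.rpow_nonneg (Wf_nonneg hs.le F z) _
  have e1 : s ^ 2 * ai q s F i ^ q = ∫ z in cell s i, Wf s F z ^ q := by
    unfold ai
    rw [← Real.rpow_mul (by positivity), one_div_mul_cancel hq0.ne', Real.rpow_one]
    field_simp
  rw [e1, ofReal_integral_eq_lintegral_ofReal hi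
    (Filter.Eventually.of_forall fun z => Real.rpow_nonneg (Wf_nonneg hs.le F z) _)]
  congr 1
  funext z
  rw [ENNReal.ofReal_rpow_of_nonneg (Wf_nonneg hs.le F z) hq0.le]

/-- the localized piece -/
noncomputable def pc (s : ℝ) (F : ℂ → ℂ) (i : ℤ × ℤ) (z : ℂ) : ℂ := Bc s i z * F z

lemma pc_contDiff (s : ℝ) {F : ℂ → ℂ} (hF : ContDiff ℝ 1 F) (i : ℤ × ℤ) :
    ContDiff ℝ 1 (pc s F i) := (Bc_contDiff s i).mul hF

lemma pc_eq_zero {s : ℝ} {F : ℂ → ℂ} {i : ℤ × ℤ} {z : ℂ} (hz : z ∉ cell s i) : pc s F i z = 0 := by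
  unfold pc Bc
  rw [Bf_eq_zero_of_notMem hz]; simp

lemma norm_pc_le {s : ℝ} (hs : 0 < s) (F : ℂ → ℂ) (i : ℤ × ℤ) (z : ℂ) :
    ‖pc s F i z‖ ≤ Wf s F z := by
  unfold pc Bc Wf
  rw [norm_mul, Complex.norm_real, Real.norm_of_nonneg (Bf_nonneg _ _ _)]
  have h1 := Bf_le_one s i z
  have h2 := norm_nonneg (F z)
  have h3 : 0 ≤ s * ‖dbar F z‖ := by positivity
  nlinarith

lemma norm_dbar_pc_le {s : ℝ} (hs : 0 < s) {F : ℂ → ℂ} (hF : ContDiff ℝ 1 F) (i : ℤ × ℤ) (z : ℂ) :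
    ‖dbar (pc s F i) z‖ ≤ (1 + 2 * lipM) * Wf s F z / s := by
  have h := dbar_mul (z := z) ((Bc_contDiff s i).differentiable one_ne_zero z)
    (hF.differentiable one_ne_zero z)
  have e : dbar (pc s F i) z = Bc s i z * dbar F z + F z * dbar (Bc s i) z := h
  rw [e]
  refine (norm_add_le _ _).trans ?_
  rw [norm_mul, norm_mul]
  have h1 : ‖Bc s i z‖ ≤ 1 := by
    unfold Bc
    rw [Complex.norm_real, Real.norm_of_nonneg (Bf_nonneg _ _ _)]
    exact Bf_le_one s i z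
  have h2 : ‖dbar (Bc s i) z‖ ≤ 2 * lipM / s := (norm_dbar_le _ _).trans (norm_fderiv_Bc hs i z)
  have h3 := norm_nonneg (F z)
  have h4 := norm_nonneg (dbar F z)
  have hM : (0:ℝ) ≤ lipM := lipM.coe_nonneg
  calc ‖Bc s i z‖ * ‖dbar F z‖ + ‖F z‖ * ‖dbar (Bc s i) z‖
      ≤ 1 * ‖dbar F z‖ + ‖F z‖ * (2 * lipM / s) := by gcongr
    _ ≤ _ := by
        unfold Wf
        rw [le_div_iff₀ hs]
        have : (1 * ‖dbar F z‖ + ‖F z‖ * (2 * lipM / s)) * s = s * ‖dbar F z‖ + 2 * lipM * ‖F z‖ := by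
          field_simp
        rw [this]
        have h5 : 0 ≤ s * ‖dbar F z‖ := by positivity
        nlinarith [mul_nonneg hM h5]

lemma dbar_pc_eq_zero {s : ℝ} {F : ℂ → ℂ} {i : ℤ × ℤ} {z : ℂ} (hz : z ∉ cell s i) :
    dbar (pc s F i) z = 0 := by
  have hev : pc s F i =ᶠ[nhds z] fun _ => 0 := by
    filter_upwards [(cell_isClosed s i).isOpen_compl.mem_nhds hz] with w hw
    exact pc_eq_zero hw
  unfold dbar
  rw [hev.fderiv_eq]
  simp

lemma lintegral_cell_le {q s : ℝ} (hq : 3 < q) {G : ℂ → ℂ} {W : ℂ → ℝ} {i : ℤ × ℤ}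
    (h0 : ∀ z, z ∉ cell s i → G z = 0) (h1 : ∀ z, ‖G z‖ ≤ W z) :
    ∫⁻ z, ‖G z‖ₑ ^ q ≤ ∫⁻ z in cell s i, ENNReal.ofReal (W z) ^ q := by
  have hq0 : 0 < q := by linarith
  rw [← lintegral_indicator (cell_isClosed s i).measurableSet]
  refine lintegral_mono fun z => ?_
  by_cases hz : z ∈ cell s i
  · rw [Set.indicator_of_mem hz]
    gcongr
    rw [← ofReal_norm]
    exact ENNReal.ofReal_le_ofReal (h1 z)
  · rw [Set.indicator_of_notMem hz, h0 z hz, enorm_zero, ENNReal.zero_rpow_of_pos hq0]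

lemma pc_Lq {q s : ℝ} (hq : 3 < q) (hs : 0 < s) {F : ℂ → ℂ} (hF : ContDiff ℝ 1 F) (i : ℤ × ℤ) :
    ∫⁻ z, ‖pc s F i z‖ₑ ^ q ≤ ENNReal.ofReal (s ^ 2 * ai q s F i ^ q) := by
  rw [← ai_spec hq hs hF i]
  exact lintegral_cell_le hq (fun z hz => pc_eq_zero hz) (norm_pc_le hs F i)

lemma dbar_pc_Lq {q s : ℝ} (hq : 3 < q) (hs : 0 < s) {F : ℂ → ℂ} (hF : ContDiff ℝ 1 F) (i : ℤ × ℤ) :
    ∫⁻ z, ‖dbar (pc s F i) z‖ₑ ^ q ≤
      ENNReal.ofReal (s ^ 2 * ((1 + 2 * lipM) * ai q s F i / s) ^ q) := by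
  have hq0 : 0 < q := by linarith
  have ha := ai_nonneg (q := q) hs F i
  have h1 := lintegral_cell_le (s := s) (i := i) hq (fun z hz => dbar_pc_eq_zero (s := s) (F := F) hz)
    (norm_dbar_pc_le hs hF i)
  refine h1.trans (le_of_eq ?_)
  have e : ∀ z, ENNReal.ofReal ((1 + 2 * lipM) * Wf s F z / s) ^ q =
      ENNReal.ofReal (((1 + 2 * lipM) / s) ^ q) * ENNReal.ofReal (Wf s F z) ^ q := by
    intro z
    have hW := Wf_nonneg hs.le F z
    rw [ENNReal.ofReal_rpow_of_nonneg (by positivity) hq0.le,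
      ENNReal.ofReal_rpow_of_nonneg hW hq0.le, ← ENNReal.ofReal_mul (by positivity),
      ← Real.mul_rpow (by positivity) hW]
    congr 2
    ring
  simp_rw [e]
  rw [lintegral_const_mul' _ _ ENNReal.ofReal_ne_top, ai_spec hq hs hF i,
    ← ENNReal.ofReal_mul (by positivity)]
  congr 1
  have : (1 + 2 * (lipM:ℝ)) * ai q s F i / s = (1 + 2 * lipM) / s * ai q s F i := by ring
  rw [this, Real.mul_rpow (by positivity) ha]
  ring

end Pool.Agent.H25.Ext
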