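import Mathlib
import Pool.Agent.H25.Ext.Single

set_option autoImplicit false

/-! The fixed-time estimate at a single scale. -/

namespace Pool.Agent.H25.Ext

open MeasureTheory Metric
open scoped ENNReal Real NNReal

open Classical in
/-- relevant indices -/
noncomputable def idx (s : ℝ) (N : ℕ) (S : Set ℂ) : Finset (ℤ × ℤ) :=
  (box N).filter fun i => ∃ z ∈ S, z ∈ cell s i

open Classical in
lemma sum_pc {s : ℝ} {N : ℕ} (hs : 0 < s) (hN : 1 ≤ N * s) {S : Set ℂ} (hS : S ⊆ closedBall 0 1)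
    {F : ℂ → ℂ} (hF0 : ∀ z, z ∉ S → F z = 0) (z : ℂ) : ∑ i ∈ idx s N S, pc s F i z = F z := by
  by_cases hz : z ∈ S
  · unfold pc Bc
    rw [← Finset.sum_mul, ← Complex.ofReal_sum]
    have h1 : ∑ i ∈ idx s N S, Bf s i z = ∑ i ∈ box N, Bf s i z := by
      refine Finset.sum_subset (Finset.filter_subset _ _) ?_
      intro i hi hni
      apply Bf_eq_zero_of_notMem
      intro hc
      apply hni
      unfold idx
      rw [Finset.mem_filter]
      exact ⟨hi, z, hz, hc⟩
    have hz1 : ‖z‖ ≤ 1 := by simpa using hS hz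
    have h2 : ∑ i ∈ box N, Bf s i z = 1 := by
      apply sum_Bf
      · rw [abs_div, abs_of_pos hs, div_le_iff₀ hs]
        exact (Complex.abs_re_le_norm z).trans (hz1.trans hN)
      · rw [abs_div, abs_of_pos hs, div_le_iff₀ hs]
        exact (Complex.abs_im_le_norm z).trans (hz1.trans hN)
    rw [h1, h2]
    simp
  · unfold pc
    rw [hF0 z hz]
    simp

open Classical in
lemma idx_count {s Θ : ℝ} {N : ℕ} (hs : 0 < s) (hΘ : 0 < Θ) {S : Set ℂ}
    (hP : ∀ (c : ℂ) (r : ℝ), s ≤ r → r ≤ 4 →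
      volume (thickening (3 * s) S ∩ closedBall c r) ≤ ENNReal.ofReal (Θ * s * r))
    {J : Finset (ℤ × ℤ)} (hJ : J ⊆ idx s N S) (c : ℂ) {r : ℝ} (hs1 : s ≤ 1) (h1 : s ≤ r) (h2 : r ≤ 3)
    (hJr : ∀ i ∈ J, ‖gp s i - c‖ ≤ r) : (J.card : ℝ) ≤ 3 * Θ * r / s := by
  have hsub : ∀ i ∈ J, ball (gp s i) (s / 2) ⊆ thickening (3 * s) S ∩ closedBall c (r + s) := by
    intro i hi w hw
    have hmem := hJ hi
    unfold idx at hmem
    rw [Finset.mem_filter] at hmem
    obtain ⟨_, z, hzS, hzc⟩ := hmem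
    have h3 := cell_subset hs i hzc
    rw [mem_closedBall] at h3
    rw [mem_ball] at hw
    refine ⟨?_, ?_⟩
    · rw [mem_thickening_iff]
      refine ⟨z, hzS, ?_⟩
      have := dist_triangle w (gp s i) z
      rw [dist_comm (gp s i) z] at this
      linarith
    · rw [mem_closedBall]
      have h4 := dist_triangle w (gp s i) c
      have h5 := hJr i hi
      rw [← dist_eq_norm] at h5
      linarith
  have h3 := (count_le hs J _ hsub).trans (hP c (r + s) (by linarith) (by linarith))
  have h4 : (J.card : ℝ≥0∞) * ENNReal.ofReal (π / 4 * s ^ 2) =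
      ENNReal.ofReal (J.card * (π / 4 * s ^ 2)) := by
    rw [ENNReal.ofReal_mul (Nat.cast_nonneg _), ENNReal.ofReal_natCast]
  rw [h4, ENNReal.ofReal_le_ofReal_iff (by have : 0 ≤ r + s := by linarith
                                           positivity)] at h3
  rw [le_div_iff₀ hs]
  have hπ := Real.pi_gt_three
  have h5 : (J.card : ℝ) * (3 / 4 * s ^ 2) ≤ Θ * s * (2 * r) := by
    calc (J.card : ℝ) * (3 / 4 * s ^ 2) ≤ J.card * (π / 4 * s ^ 2) := by gcongr
      _ ≤ Θ * s * (r + s) := h3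
      _ ≤ Θ * s * (2 * r) := by gcongr; linarith
  have h6 : (J.card : ℝ) * s * (3 / 4) ≤ Θ * (2 * r) := by
    have h7 : s * ((J.card : ℝ) * s * (3 / 4)) ≤ s * (Θ * (2 * r)) := by nlinarith
    exact le_of_mul_le_mul_left h7 hs
  have h8 : 0 ≤ Θ * r := mul_nonneg hΘ.le (by linarith)
  linarith

open Classical in
lemma idx_norm {s : ℝ} {N : ℕ} (hs : 0 < s) (hs1 : s ≤ 1) {S : Set ℂ} (hS : S ⊆ closedBall 0 1)
    {i : ℤ × ℤ} (hi : i ∈ idx s N S) : ‖gp s i‖ ≤ 3 := by
  unfold idx at hi
  rw [Finset.mem_filter] at hi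
  obtain ⟨_, z, hzS, hzc⟩ := hi
  have h3 := cell_subset hs i hzc
  rw [mem_closedBall, dist_eq_norm] at h3
  have h4 : ‖z‖ ≤ 1 := by simpa using hS hzS
  have : gp s i = z - (z - gp s i) := by ring
  rw [this]
  refine (norm_sub_le _ _).trans ?_
  linarith

lemma idx_sum {s Θ : ℝ} {N M : ℕ} (hs : 0 < s) (hs1 : s ≤ 1) (hM : 3 ≤ 2 ^ M * s) (hΘ : 0 < Θ)
    {S : Set ℂ} (hS : S ⊆ closedBall 0 1)
    (hP : ∀ (c : ℂ) (r : ℝ), s ≤ r → r ≤ 4 →
      volume (thickening (3 * s) S ∩ closedBall c r) ≤ ENNReal.ofReal (Θ * s * r))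
    (c : ℂ) : ∑ i ∈ idx s N S, s / (s + ‖gp s i - c‖) ≤ 3 * Θ * (M + 2) := by
  have hall : ((idx s N S).card : ℝ) ≤ 3 * Θ * 3 / s := by
    refine idx_count hs hΘ hP (Finset.Subset.refl _) 0 hs1 (by linarith) le_rfl ?_
    intro i hi
    rw [sub_zero]
    exact idx_norm hs hs1 hS hi
  refine sum_decay hs _ c M ?_ ?_
  · intro m
    by_cases h : 2 ^ m * s ≤ 3
    · have h1 : s ≤ 2 ^ m * s := by
        have : (1:ℝ) ≤ 2 ^ m := one_le_pow₀ (by norm_num)
        nlinarith
      have h2 := idx_count (N := N) hs hΘ hP (J := (idx s N S).filter fun i => ‖gp s i - c‖ ≤ 2 ^ m * s)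
        (Finset.filter_subset _ _) c hs1 h1 h (fun i hi => (Finset.mem_filter.mp hi).2)
      refine h2.trans (le_of_eq ?_)
      field_simp
    · push Not at h
      have h3 : (((idx s N S).filter fun i => ‖gp s i - c‖ ≤ 2 ^ m * s).card : ℝ) ≤ (idx s N S).card := by
        exact_mod_cast Finset.card_le_card (Finset.filter_subset _ _)
      refine h3.trans (hall.trans ?_)
      rw [div_le_iff₀ hs]
      nlinarith
  · refine hall.trans ?_
    rw [div_le_iff₀ hs]
    nlinarith

lemma ext_finsum {ι : Type*} (J : Finset ι) (f : ι → ℂ → ℂ) (hf : ∀ i, Integrable (f i)) (ζ : ℂ)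
    (t : ℝ) : ext (fun z => ∑ i ∈ J, f i z) ζ t = ∑ i ∈ J, ext (f i) ζ t := by
  unfold ext
  rw [← integral_finsetSum]
  · congr 1
    funext z
    rw [Finset.mul_sum]
  · intro i _
    exact ext_integrand_integrable (hf i) ζ t

theorem fixed_time {q : ℝ} (hq : 3 < q) : ∃ C : ℝ, 0 < C ∧ ∀ {s Θ : ℝ} {N M : ℕ}, 0 < s → s ≤ 1 →
    1 ≤ N * s → 3 ≤ 2 ^ M * s → 0 < Θ → ∀ {S : Set ℂ}, S ⊆ closedBall 0 1 →
    (∀ (c : ℂ) (r : ℝ), s ≤ r → r ≤ 4 →
      volume (thickening (3 * s) S ∩ closedBall c r) ≤ ENNReal.ofReal (Θ * s * r)) →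
    ∀ {F : ℂ → ℂ}, ContDiff ℝ 1 F → (∀ z, z ∉ S → F z = 0) → ∀ {t : ℝ}, t ≠ 0 →
    ∫⁻ ζ, ‖ext F ζ t‖ₑ ^ q ≤ ENNReal.ofReal (C * (Θ * (M + 2) * (s / (1 + s * |t|))) ^ (q - 2)) *
      ∫⁻ z, ENNReal.ofReal (Wf s F z) ^ q := by
  classical
  have hq0 : 0 < q := by linarith
  obtain ⟨C1, hC1, hosc⟩ := piece_osc hq
  set C2 : ℝ := 1 + 2 * lipM with hC2
  have hC2p : 0 < C2 := by have := lipM.coe_nonneg; rw [hC2]; positivity
  set K0 : ℝ := 72 * π + 6 * C1 * C2 with hK0
  have hK0p : 0 < K0 := by positivity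
  have hcst : 0 < q * 2 ^ q / (q - 2) := by
    have : 0 < q - 2 := by linarith
    positivity
  refine ⟨q * 2 ^ q / (q - 2) * K0 ^ (q - 2) * ((2 * π) ^ 2 * (4 * π)) * 9, by positivity, ?_⟩
  intro s Θ N M hs hs1 hN hM hΘ S hS hP F hF hF0 t ht
  set I := idx s N S with hI
  set f : ℤ × ℤ → ℂ → ℂ := fun i => pc s F i with hf
  have hfc : ∀ i, Continuous (f i) := fun i => (pc_contDiff s hF i).continuous
  have hfs : ∀ i, HasCompactSupport (f i) := by
    intro i
    refine HasCompactSupport.of_support_subset_isCompact (cell_compact hs i) ?_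
    intro z hz
    by_contra h
    exact hz (pc_eq_zero h)
  have hfi : ∀ i, Integrable (f i) := fun i => (hfc i).integrable_of_hasCompactSupport (hfs i)
  have hsum : ext F = fun ζ t => ∑ i ∈ I, ext (f i) ζ t := by
    funext ζ t
    rw [← ext_finsum I f hfi ζ t]
    congr 1
    funext z
    exact (sum_pc hs hN hS hF0 z).symm
  set a : ℤ × ℤ → ℝ := ai q s F with ha
  have ha0 : ∀ i, 0 ≤ a i := fun i => ai_nonneg hs F i
  have ht0 : 0 < |t| := abs_pos.mpr ht
  set K : ℝ := K0 * (Θ * (M + 2) * (s / (1 + s * |t|))) with hK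
  have hKp : 0 < K := by positivity
  have hcardall : (I.card : ℝ) ≤ 3 * Θ * 3 / s := by
    refine idx_count hs hΘ hP (Finset.Subset.refl _) 0 hs1 (by linarith) le_rfl ?_
    intro i hi
    rw [sub_zero]
    exact idx_norm hs hs1 hS hi
  have hπ := Real.pi_gt_three
  -- sup bound
  have H1 : ∀ l : ℝ, 0 < l → ∀ ζ, ‖∑ i ∈ I with a i ≤ l, ext (f i) ζ t‖ₑ ≤ ENNReal.ofReal (K * l) := by
    intro l hl ζ
    refine (enorm_sum_le _ _).trans ?_
    rcases le_or_gt (s * |t|) 1 with hst | hst
    · calc ∑ i ∈ I with a i ≤ l, ‖ext (f i) ζ t‖ₑ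
          ≤ ∑ i ∈ I with a i ≤ l, ENNReal.ofReal (4 * π * s ^ 2 * l) := by
            refine Finset.sum_le_sum fun i hi => ?_
            have h1 := piece_triv hq hs (ha0 i) (hfc i) (z0 := gp s i)
              (fun z hz => pc_eq_zero fun h => hz (cell_subset hs i h)) (pc_Lq hq hs hF i) ζ t
            refine h1.trans (ENNReal.ofReal_le_ofReal ?_)
            have := (Finset.mem_filter.mp hi).2
            gcongr
        _ ≤ ∑ i ∈ I, ENNReal.ofReal (4 * π * s ^ 2 * l) :=
            Finset.sum_le_sum_of_subset (Finset.filter_subset _ _)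
        _ = ENNReal.ofReal (I.card * (4 * π * s ^ 2 * l)) := by
            rw [Finset.sum_const, nsmul_eq_mul, ENNReal.ofReal_mul (Nat.cast_nonneg _),
              ENNReal.ofReal_natCast]
        _ ≤ _ := by
            apply ENNReal.ofReal_le_ofReal
            have h2 : (I.card : ℝ) * (4 * π * s ^ 2 * l) ≤ 36 * π * Θ * s * l := by
              calc (I.card : ℝ) * (4 * π * s ^ 2 * l) ≤ (3 * Θ * 3 / s) * (4 * π * s ^ 2 * l) := by
                    gcongr
                _ = 36 * π * Θ * s * l := by field_simp; ring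
            refine h2.trans ?_
            rw [hK]
            have h3 : s / 2 ≤ s / (1 + s * |t|) := by
              apply div_le_div_of_nonneg_left hs.le (by positivity)
              linarith
            have h4 : 36 * π * Θ * s ≤ K0 * (Θ * (M + 2) * (s / (1 + s * |t|))) := by
              calc 36 * π * Θ * s ≤ K0 * (Θ * 2 * (s / 2)) := by
                    rw [hK0]
                    have : 0 ≤ 6 * C1 * C2 * (Θ * 2 * (s / 2)) := by positivity
                    nlinarith [mul_pos (mul_pos (by linarith : (0:ℝ) < π) hΘ) hs]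
                _ ≤ K0 * (Θ * (M + 2) * (s / (1 + s * |t|))) := by
                    gcongr
                    have : (0:ℝ) ≤ M := Nat.cast_nonneg M
                    linarith
            gcongr
    · set c : ℂ := -(ζ / (2 * t)) with hc
      calc ∑ i ∈ I with a i ≤ l, ‖ext (f i) ζ t‖ₑ
          ≤ ∑ i ∈ I with a i ≤ l, ENNReal.ofReal (C1 / |t| * (s / (s + ‖gp s i - c‖)) * (C2 * l)) := by
            refine Finset.sum_le_sum fun i hi => ?_
            have h1 := hosc hs (a := C2 * a i) (mul_nonneg hC2p.le (ha0 i)) (pc_contDiff s hF i)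
              (z0 := gp s i)
              (fun z hz => pc_eq_zero fun h => hz (cell_subset hs i h)) (dbar_pc_Lq hq hs hF i) ζ ht
            refine h1.trans (ENNReal.ofReal_le_ofReal ?_)
            have := (Finset.mem_filter.mp hi).2
            have hn := norm_nonneg (gp s i - c)
            gcongr
        _ ≤ ∑ i ∈ I, ENNReal.ofReal (C1 / |t| * (s / (s + ‖gp s i - c‖)) * (C2 * l)) :=
            Finset.sum_le_sum_of_subset (Finset.filter_subset _ _)
        _ = ENNReal.ofReal (C1 / |t| * (∑ i ∈ I, s / (s + ‖gp s i - c‖)) * (C2 * l)) := by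
            rw [← ENNReal.ofReal_sum_of_nonneg]
            · rw [Finset.mul_sum, Finset.sum_mul]
            · intro i _
              have hn := norm_nonneg (gp s i - c)
              positivity
        _ ≤ _ := by
            apply ENNReal.ofReal_le_ofReal
            have h2 := idx_sum (N := N) hs hs1 hM hΘ hS hP c
            have h3 : C1 / |t| * (∑ i ∈ I, s / (s + ‖gp s i - c‖)) * (C2 * l) ≤
                C1 / |t| * (3 * Θ * (M + 2)) * (C2 * l) := by gcongr
            refine h3.trans ?_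
            rw [hK]
            have h4 : 1 / |t| ≤ 2 * (s / (1 + s * |t|)) := by
              rw [div_le_iff₀ ht0]
              have h5 : 2 * (s / (1 + s * |t|)) * |t| = 2 * (s * |t|) / (1 + s * |t|) := by ring
              rw [h5, le_div_iff₀ (by positivity)]
              linarith
            calc C1 / |t| * (3 * Θ * (M + 2)) * (C2 * l)
                = (3 * C1 * C2) * (Θ * (M + 2)) * (1 / |t|) * l := by ring
              _ ≤ (3 * C1 * C2) * (Θ * (M + 2)) * (2 * (s / (1 + s * |t|))) * l := by gcongr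
              _ = (6 * C1 * C2) * (Θ * (M + 2) * (s / (1 + s * |t|))) * l := by ring
              _ ≤ K0 * (Θ * (M + 2) * (s / (1 + s * |t|))) * l := by
                  gcongr
                  rw [hK0]
                  have : 0 < 72 * π := by positivity
                  linarith
  -- L2 bound
  have H2 : ∀ l : ℝ, 0 < l → ∫⁻ ζ, ‖∑ i ∈ I with l < a i, ext (f i) ζ t‖ₑ ^ (2 : ℝ) ≤
      ENNReal.ofReal (((2 * π) ^ 2 * (4 * π) * s ^ 2) * ∑ i ∈ I with l < a i, a i ^ 2) := by
    intro l hl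
    set J := I.filter fun i => l < a i with hJ
    set g : ℂ → ℂ := fun z => ∑ i ∈ J, f i z with hg
    have hgc : Continuous g := by
      rw [hg]
      exact continuous_finsetSum _ fun i _ => hfc i
    have hgs : HasCompactSupport g := by
      refine HasCompactSupport.of_support_subset_isCompact
        (J.isCompact_biUnion fun i _ => cell_compact hs i) ?_
      intro z hz
      by_contra h
      apply hz
      rw [hg]
      refine Finset.sum_eq_zero fun i hi => ?_
      apply pc_eq_zero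
      intro hc
      exact h (Set.mem_biUnion (Finset.mem_coe.mpr hi) hc)
    have e1 : ∀ ζ, ∑ i ∈ J, ext (f i) ζ t = ext g ζ t := fun ζ => (ext_finsum J f hfi ζ t).symm
    simp_rw [e1]
    rw [plancherel_ext (hgc.integrable_of_hasCompactSupport hgs)
      (hgc.memLp_of_hasCompactSupport hgs) t]
    have h1 : ∫⁻ z, ‖g z‖ₑ ^ (2:ℝ) ≤ ∑ i ∈ J, ENNReal.ofReal (4 * π * s ^ 2 * a i ^ 2) := by
      have h2 : ∀ z, ‖g z‖ₑ ^ (2:ℝ) ≤ ∑ i ∈ J, (cell s i).indicator
          (fun z => ENNReal.ofReal (Wf s F z) ^ (2:ℝ)) z := by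
        intro z
        have hB := sum_Bf_le_one s J z
        have hB0 : 0 ≤ ∑ i ∈ J, Bf s i z := Finset.sum_nonneg fun i _ => Bf_nonneg s i z
        have e2 : ‖g z‖ = (∑ i ∈ J, Bf s i z) * ‖F z‖ := by
          rw [hg, hf]
          simp only [pc, Bc]
          rw [← Finset.sum_mul, ← Complex.ofReal_sum, norm_mul, Complex.norm_real,
            Real.norm_of_nonneg hB0]
        have hW : ‖F z‖ ≤ Wf s F z := by
          unfold Wf
          have : 0 ≤ s * ‖dbar F z‖ := by positivity
          linarith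
        have hW0 := Wf_nonneg hs.le F z
        have h3 : ‖g z‖ ^ 2 ≤ ∑ i ∈ J, Bf s i z * Wf s F z ^ 2 := by
          rw [e2, ← Finset.sum_mul, mul_pow]
          have h4 : (∑ i ∈ J, Bf s i z) ^ 2 ≤ ∑ i ∈ J, Bf s i z := by nlinarith
          gcongr
        have h5 : ‖g z‖ₑ ^ (2:ℝ) = ENNReal.ofReal (‖g z‖ ^ 2) := by
          rw [← ofReal_norm, ENNReal.ofReal_rpow_of_nonneg (norm_nonneg _) (by norm_num)]
          congr 1
          exact Real.rpow_two _
        rw [h5]
        refine (ENNReal.ofReal_le_ofReal h3).trans ?_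
        rw [ENNReal.ofReal_sum_of_nonneg fun i _ => mul_nonneg (Bf_nonneg s i z) (by positivity)]
        refine Finset.sum_le_sum fun i _ => ?_
        by_cases hz : z ∈ cell s i
        · rw [Set.indicator_of_mem hz, ENNReal.ofReal_rpow_of_nonneg hW0 (by norm_num)]
          apply ENNReal.ofReal_le_ofReal
          rw [Real.rpow_two]
          have := Bf_le_one s i z
          have h6 : 0 ≤ Wf s F z ^ 2 := by positivity
          nlinarith
        · rw [Set.indicator_of_notMem hz, Bf_eq_zero_of_notMem hz]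
          simp
      have hWm : Measurable (fun z => ENNReal.ofReal (Wf s F z)) :=
        (Wf_continuous s hF).measurable.ennreal_ofReal
      calc ∫⁻ z, ‖g z‖ₑ ^ (2:ℝ) ≤ ∫⁻ z, ∑ i ∈ J, (cell s i).indicator
            (fun z => ENNReal.ofReal (Wf s F z) ^ (2:ℝ)) z := lintegral_mono h2
        _ = ∑ i ∈ J, ∫⁻ z in cell s i, ENNReal.ofReal (Wf s F z) ^ (2:ℝ) := by
            rw [lintegral_finsetSum]
            · refine Finset.sum_congr rfl fun i _ => ?_
              rw [lintegral_indicator (cell_isClosed s i).measurableSet]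
            · intro i _
              exact (hWm.pow_const _).indicator (cell_isClosed s i).measurableSet
        _ ≤ _ := by
            refine Finset.sum_le_sum fun i _ => ?_
            exact sq_le_of_Lq hq hs (ha0 i) hWm (cell_subset hs i) (ai_spec hq hs hF i).le
    calc ENNReal.ofReal ((2 * π) ^ 2) * ∫⁻ z, ‖g z‖ₑ ^ (2:ℝ)
        ≤ ENNReal.ofReal ((2 * π) ^ 2) * ∑ i ∈ J, ENNReal.ofReal (4 * π * s ^ 2 * a i ^ 2) := by
          gcongr
      _ = _ := by
          rw [← ENNReal.ofReal_sum_of_nonneg (fun i _ => by positivity),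
            ← ENNReal.ofReal_mul (by positivity), ← Finset.mul_sum]
          congr 1
          ring
  have hmain := marc hq I a ha0 (fun i ζ => ext (f i) ζ t)
    (fun i => (ext_continuous (hfi i)).comp (by fun_prop : Continuous fun ζ : ℂ => (ζ, t)))
    hKp (by positivity) H1 H2
  have e3 : ∀ ζ, ext F ζ t = ∑ i ∈ I, ext (f i) ζ t := fun ζ => by rw [hsum]
  simp_rw [e3]
  refine hmain.trans ?_
  -- sum of the pieces
  have hWm : Measurable (fun z => ENNReal.ofReal (Wf s F z)) :=
    (Wf_continuous s hF).measurable.ennreal_ofReal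
  have hS9 : ENNReal.ofReal (s ^ 2 * ∑ i ∈ I, a i ^ q) ≤
      9 * ∫⁻ z, ENNReal.ofReal (Wf s F z) ^ q := by
    rw [Finset.mul_sum, ENNReal.ofReal_sum_of_nonneg fun i _ => by have := ha0 i; positivity]
    calc ∑ i ∈ I, ENNReal.ofReal (s ^ 2 * a i ^ q)
        = ∑ i ∈ I, ∫⁻ z in cell s i, ENNReal.ofReal (Wf s F z) ^ q :=
          Finset.sum_congr rfl fun i _ => (ai_spec hq hs hF i).symm
      _ = ∫⁻ z, ∑ i ∈ I, (cell s i).indicator (fun z => ENNReal.ofReal (Wf s F z) ^ q) z := by
          rw [lintegral_finsetSum]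
          · refine Finset.sum_congr rfl fun i _ => ?_
            rw [lintegral_indicator (cell_isClosed s i).measurableSet]
          · intro i _
            exact (hWm.pow_const _).indicator (cell_isClosed s i).measurableSet
      _ ≤ ∫⁻ z, 9 * ENNReal.ofReal (Wf s F z) ^ q := by
          refine lintegral_mono fun z => ?_
          simp only [Set.indicator_apply]
          rw [← Finset.sum_filter, Finset.sum_const, nsmul_eq_mul]
          have := card_cell s I z
          gcongr
          exact_mod_cast this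
      _ = _ := by rw [lintegral_const_mul' _ _ (by norm_num)]
  have e4 : q * 2 ^ q / (q - 2) * K ^ (q - 2) * ((2 * π) ^ 2 * (4 * π) * s ^ 2) * ∑ i ∈ I, a i ^ q =
      (q * 2 ^ q / (q - 2) * K0 ^ (q - 2) * ((2 * π) ^ 2 * (4 * π)) *
        (Θ * (M + 2) * (s / (1 + s * |t|))) ^ (q - 2)) * (s ^ 2 * ∑ i ∈ I, a i ^ q) := by
    rw [hK, Real.mul_rpow hK0p.le (by positivity)]
    ring
  rw [e4, ENNReal.ofReal_mul (by positivity)]
  calc _ ≤ ENNReal.ofReal (q * 2 ^ q / (q - 2) * K0 ^ (q - 2) * ((2 * π) ^ 2 * (4 * π)) *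
        (Θ * (M + 2) * (s / (1 + s * |t|))) ^ (q - 2)) *
        (9 * ∫⁻ z, ENNReal.ofReal (Wf s F z) ^ q) := by gcongr
    _ = _ := by
        rw [← mul_assoc]
        congr 1
        have h9 : (9:ℝ≥0∞) = ENNReal.ofReal 9 := by norm_num
        rw [h9, ← ENNReal.ofReal_mul (by positivity)]
        congr 1
        ring

end Pool.Agent.H25.Ext
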