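import Mathlib
import Pool.Agent.H25.Ext.Fixed

set_option autoImplicit false

/-! The single-scale space-time estimate. -/

namespace Pool.Agent.H25.Ext

open MeasureTheory Metric
open scoped ENNReal Real NNReal

/-- constant in the time integral -/
noncomputable def kt (r : ℝ) : ℝ≥0∞ := ∫⁻ u : ℝ, ENNReal.ofReal ((1 + ‖u‖) ^ (-r))

lemma kt_lt_top {r : ℝ} (hr : 1 < r) : kt r < ⊤ := by
  unfold kt
  exact finite_integral_one_add_norm (by rw [Module.finrank_self]; exact_mod_cast hr)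

lemma time_int {r s : ℝ} (hs : 0 < s) :
    ∫⁻ t : ℝ, ENNReal.ofReal ((s / (1 + s * |t|)) ^ r) = ENNReal.ofReal (s ^ (r - 1)) * kt r := by
  have e1 : ∀ t : ℝ, ENNReal.ofReal ((s / (1 + s * |t|)) ^ r) =
      ENNReal.ofReal (s ^ r) * ENNReal.ofReal ((1 + ‖s * t‖) ^ (-r)) := by
    intro t
    have h0 : 0 < 1 + s * |t| := by positivity
    rw [← ENNReal.ofReal_mul (by positivity), norm_mul, Real.norm_of_nonneg hs.le,
      Real.norm_eq_abs, Real.div_rpow hs.le h0.le, Real.rpow_neg h0.le, div_eq_mul_inv]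
  simp_rw [e1]
  rw [lintegral_const_mul' _ _ ENNReal.ofReal_ne_top]
  have hm : Measurable (fun u : ℝ => ENNReal.ofReal ((1 + ‖u‖) ^ (-r))) := by fun_prop
  have h2 : ∫⁻ t : ℝ, ENNReal.ofReal ((1 + ‖s * t‖) ^ (-r)) =
      ∫⁻ u, ENNReal.ofReal ((1 + ‖u‖) ^ (-r)) ∂(Measure.map (fun x => s * x) volume) :=
    (lintegral_map hm (measurable_const_mul s)).symm
  rw [h2, Real.map_volume_mul_left hs.ne', lintegral_smul_measure, smul_eq_mul, ← mul_assoc,
    abs_of_pos (inv_pos.mpr hs), ← ENNReal.ofReal_mul (by positivity)]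
  unfold kt
  congr 2
  rw [Real.rpow_sub hs, Real.rpow_one, div_eq_mul_inv]

theorem single_scale {q : ℝ} (hq : 3 < q) : ∃ C : ℝ, 0 < C ∧ ∀ {s Θ : ℝ} {N M : ℕ}, 0 < s → s ≤ 1 →
    1 ≤ N * s → 3 ≤ 2 ^ M * s → 0 < Θ → ∀ {S : Set ℂ}, S ⊆ closedBall 0 1 →
    (∀ (c : ℂ) (r : ℝ), s ≤ r → r ≤ 4 →
      volume (thickening (3 * s) S ∩ closedBall c r) ≤ ENNReal.ofReal (Θ * s * r)) →
    ∀ {F : ℂ → ℂ}, ContDiff ℝ 1 F → (∀ z, z ∉ S → F z = 0) →
    ∫⁻ p : ℂ × ℝ, ‖ext F p.1 p.2‖ₑ ^ q ≤ ENNReal.ofReal (C * (Θ * (M + 2)) ^ (q - 2) * s ^ (q - 3)) *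
      ∫⁻ z, ENNReal.ofReal (Wf s F z) ^ q := by
  obtain ⟨C, hC, hfix⟩ := fixed_time hq
  have hk := kt_lt_top (by linarith : 1 < q - 2)
  refine ⟨C * ((kt (q - 2)).toReal + 1), by positivity, ?_⟩
  intro s Θ N M hs hs1 hN hM hΘ S hS hP F hF hF0
  have hFs : HasCompactSupport F := by
    refine HasCompactSupport.of_support_subset_isCompact (isCompact_closedBall (0:ℂ) 1) ?_
    intro z hz
    by_contra h
    exact hz (hF0 z fun h2 => h (hS h2))
  have hFi : Integrable F := hF.continuous.integrable_of_hasCompactSupport hFs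
  have hmeas : Measurable (fun p : ℂ × ℝ => ‖ext F p.1 p.2‖ₑ ^ q) :=
    (ext_continuous hFi).enorm.measurable.pow_const _
  set X := ∫⁻ z, ENNReal.ofReal (Wf s F z) ^ q with hX
  rw [Measure.volume_eq_prod, lintegral_prod_symm' _ hmeas]
  have hne : ∀ᵐ t : ℝ, t ≠ 0 := by
    have : (volume : Measure ℝ) {(0:ℝ)} = 0 := measure_singleton _
    exact compl_mem_ae_iff.mpr this
  calc ∫⁻ t : ℝ, ∫⁻ ζ : ℂ, ‖ext F ζ t‖ₑ ^ q
      ≤ ∫⁻ t : ℝ, ENNReal.ofReal (C * (Θ * (M + 2)) ^ (q - 2)) * X *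
          ENNReal.ofReal ((s / (1 + s * |t|)) ^ (q - 2)) := by
        refine lintegral_mono_ae ?_
        filter_upwards [hne] with t ht
        refine (hfix hs hs1 hN hM hΘ hS hP hF hF0 ht).trans (le_of_eq ?_)
        rw [Real.mul_rpow (by positivity) (by positivity), ← mul_assoc,
          ENNReal.ofReal_mul (by positivity)]
        ring
    _ = ENNReal.ofReal (C * (Θ * (M + 2)) ^ (q - 2)) * X *
          (ENNReal.ofReal (s ^ (q - 3)) * kt (q - 2)) := by
        rw [lintegral_const_mul _ (by fun_prop), time_int hs]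
        have : q - 2 - 1 = q - 3 := by ring
        rw [this]
    _ ≤ _ := by
        have h1 : kt (q - 2) ≤ ENNReal.ofReal ((kt (q - 2)).toReal + 1) := by
          rw [← ENNReal.ofReal_toReal hk.ne]
          apply ENNReal.ofReal_le_ofReal
          rw [ENNReal.toReal_ofReal ENNReal.toReal_nonneg]
          linarith
        calc _ ≤ ENNReal.ofReal (C * (Θ * (M + 2)) ^ (q - 2)) * X *
          (ENNReal.ofReal (s ^ (q - 3)) * ENNReal.ofReal ((kt (q - 2)).toReal + 1)) := by gcongr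
          _ = (ENNReal.ofReal (C * (Θ * (M + 2)) ^ (q - 2)) * ENNReal.ofReal (s ^ (q - 3)) *
              ENNReal.ofReal ((kt (q - 2)).toReal + 1)) * X := by ring
          _ = _ := by
            rw [← ENNReal.ofReal_mul (by positivity), ← ENNReal.ofReal_mul (by positivity)]
            congr 2
            ring

end Pool.Agent.H25.Ext
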