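import Mathlib
import Pool.Agent.H25.Ext.Scale

set_option autoImplicit false

/-! Cut-off functions adapted to the distance to a closed set. -/

namespace Pool.Agent.H25.Ext

open MeasureTheory Metric
open scoped ENNReal Real NNReal

open Classical in
/-- indices far from `Γ` -/
noncomputable def far (s : ℝ) (N : ℕ) (Γ : Set ℂ) : Finset (ℤ × ℤ) :=
  (box N).filter fun i => 3 * s ≤ infDist (gp s i) Γ

/-- the cut-off function -/
noncomputable def hc (s : ℝ) (N : ℕ) (Γ : Set ℂ) (z : ℂ) : ℂ := ∑ i ∈ far s N Γ, Bc s i z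

lemma gp_close {s : ℝ} (hs : 0 < s) {i : ℤ × ℤ} {z : ℂ} (hz : Bf s i z ≠ 0) :
    dist z (gp s i) < 2 * s := by
  have h : |z.re / s - i.1| < 1 ∧ |z.im / s - i.2| < 1 := by
    by_contra h
    exact hz (Bf_eq_zero h)
  obtain ⟨h1, h2⟩ := h
  rw [dist_eq_norm]
  have e1 : |(z - gp s i).re| < s := by
    have : (z - gp s i).re = s * (z.re / s - i.1) := by
      rw [Complex.sub_re]
      simp only [gp]
      field_simp
    rw [this, abs_mul, abs_of_pos hs]
    nlinarith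
  have e2 : |(z - gp s i).im| < s := by
    have : (z - gp s i).im = s * (z.im / s - i.2) := by
      rw [Complex.sub_im]
      simp only [gp]
      field_simp
    rw [this, abs_mul, abs_of_pos hs]
    nlinarith
  have := Complex.norm_le_abs_re_add_abs_im (z - gp s i)
  linarith

open Classical in
lemma hc_eq_zero {s : ℝ} (hs : 0 < s) {N : ℕ} {Γ : Set ℂ} {z : ℂ} (hz : infDist z Γ ≤ s) :
    hc s N Γ z = 0 := by
  unfold hc
  refine Finset.sum_eq_zero fun i hi => ?_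
  unfold Bc
  by_contra hne
  have hB : Bf s i z ≠ 0 := by
    intro h
    apply hne
    rw [h]; simp
  have h1 := gp_close hs hB
  unfold far at hi
  have h2 := (Finset.mem_filter.mp hi).2
  have h3 : infDist (gp s i) Γ ≤ infDist z Γ + dist (gp s i) z := infDist_le_infDist_add_dist
  rw [dist_comm] at h3
  linarith

open Classical in
lemma hc_eq_one {s : ℝ} (hs : 0 < s) {N : ℕ} (hN : 1 ≤ N * s) {Γ : Set ℂ} {z : ℂ} (hz1 : ‖z‖ ≤ 1)
    (hz : 5 * s ≤ infDist z Γ) : hc s N Γ z = 1 := by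
  unfold hc Bc
  rw [← Complex.ofReal_sum]
  have h1 : ∑ i ∈ far s N Γ, Bf s i z = ∑ i ∈ box N, Bf s i z := by
    refine Finset.sum_subset (Finset.filter_subset _ _) ?_
    intro i hi hni
    by_contra hB
    have h2 := gp_close hs hB
    have h3 : infDist z Γ ≤ infDist (gp s i) Γ + dist z (gp s i) := infDist_le_infDist_add_dist
    apply hni
    unfold far
    rw [Finset.mem_filter]
    exact ⟨hi, by linarith⟩
  have h2 : ∑ i ∈ box N, Bf s i z = 1 := by
    apply sum_Bf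
    · rw [abs_div, abs_of_pos hs, div_le_iff₀ hs]
      exact (Complex.abs_re_le_norm z).trans (hz1.trans hN)
    · rw [abs_div, abs_of_pos hs, div_le_iff₀ hs]
      exact (Complex.abs_im_le_norm z).trans (hz1.trans hN)
  rw [h1, h2]
  simp

lemma hc_eq_ofReal (s : ℝ) (N : ℕ) (Γ : Set ℂ) (z : ℂ) :
    ∃ x : ℝ, 0 ≤ x ∧ x ≤ 1 ∧ hc s N Γ z = (x : ℂ) := by
  refine ⟨∑ i ∈ far s N Γ, Bf s i z, Finset.sum_nonneg fun i _ => Bf_nonneg s i z,
    sum_Bf_le_one s _ z, ?_⟩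
  unfold hc Bc
  rw [Complex.ofReal_sum]

lemma norm_hc_le (s : ℝ) (N : ℕ) (Γ : Set ℂ) (z : ℂ) : ‖hc s N Γ z‖ ≤ 1 := by
  obtain ⟨x, h0, h1, h2⟩ := hc_eq_ofReal s N Γ z
  rw [h2, Complex.norm_real, Real.norm_of_nonneg h0]
  exact h1

lemma norm_hc_sub_le (s s' : ℝ) (N N' : ℕ) (Γ : Set ℂ) (z : ℂ) :
    ‖hc s N Γ z - hc s' N' Γ z‖ ≤ 1 := by
  obtain ⟨x, h0, h1, h2⟩ := hc_eq_ofReal s N Γ z
  obtain ⟨y, h3, h4, h5⟩ := hc_eq_ofReal s' N' Γ z
  rw [h2, h5, ← Complex.ofReal_sub, Complex.norm_real, Real.norm_eq_abs, abs_le]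
  constructor <;> linarith

lemma hc_contDiff (s : ℝ) (N : ℕ) (Γ : Set ℂ) : ContDiff ℝ 1 (hc s N Γ) := by
  unfold hc
  exact ContDiff.sum fun i _ => Bc_contDiff s i

open Classical in
lemma norm_fderiv_hc_le {s : ℝ} (hs : 0 < s) (N : ℕ) (Γ : Set ℂ) (z : ℂ) :
    ‖fderiv ℝ (hc s N Γ) z‖ ≤ 18 * lipM / s := by
  have h1 : fderiv ℝ (hc s N Γ) z = ∑ i ∈ far s N Γ, fderiv ℝ (Bc s i) z := by
    have : hc s N Γ = fun z => ∑ i ∈ far s N Γ, Bc s i z := rfl
    rw [this]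
    exact fderiv_fun_sum fun i _ => (Bc_contDiff s i).differentiable one_ne_zero z
  rw [h1]
  refine (norm_sum_le _ _).trans ?_
  have h2 : ∀ i ∈ far s N Γ, ‖fderiv ℝ (Bc s i) z‖ ≤
      if z ∈ cell s i then 2 * lipM / s else 0 := by
    intro i _
    split_ifs with h
    · exact norm_fderiv_Bc hs i z
    · rw [fderiv_Bc_eq_zero h, norm_zero]
  refine (Finset.sum_le_sum h2).trans ?_
  rw [← Finset.sum_filter, Finset.sum_const, nsmul_eq_mul]
  have h3 : (((far s N Γ).filter fun i => z ∈ cell s i).card : ℝ) ≤ 9 := by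
    exact_mod_cast card_cell s (far s N Γ) z
  have hM : (0:ℝ) ≤ lipM := lipM.coe_nonneg
  calc _ ≤ 9 * (2 * (lipM:ℝ) / s) := by gcongr
    _ = _ := by ring

/-- the weight function -/
noncomputable def wt (κ : ℝ) (Γ : Set ℂ) (z : ℂ) : ℝ := (min 1 (infDist z Γ)) ^ κ

/-- the target density -/
noncomputable def Xf (κ : ℝ) (Γ : Set ℂ) (f : ℂ → ℂ) (z : ℂ) : ℝ :=
  ‖f z‖ + wt κ Γ z * ‖dbar f z‖

lemma wt_nonneg (κ : ℝ) (Γ : Set ℂ) (z : ℂ) : 0 ≤ wt κ Γ z := by
  unfold wt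
  exact Real.rpow_nonneg (le_min zero_le_one infDist_nonneg) _

/-- A product `f χ` with `χ` vanishing near `Γ` is `C^1`. -/
lemma cut_contDiff {Γ : Set ℂ} (hΓ : IsClosed Γ) {f χ : ℂ → ℂ} (hf : ContDiffOn ℝ 1 f Γᶜ)
    (hχ : ContDiff ℝ 1 χ) {s : ℝ} (hs : 0 < s) (h0 : ∀ z, infDist z Γ ≤ s → χ z = 0) :
    ContDiff ℝ 1 (fun z => f z * χ z) := by
  rw [contDiff_iff_contDiffAt]
  intro z
  by_cases hz : z ∈ Γ
  · have hev : (fun z => f z * χ z) =ᶠ[nhds z] fun _ => 0 := by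
      have hopen : IsOpen {w : ℂ | infDist w Γ < s} :=
        isOpen_lt (continuous_infDist_pt Γ) continuous_const
      have hmem : z ∈ {w : ℂ | infDist w Γ < s} := by
        show infDist z Γ < s
        rw [infDist_zero_of_mem hz]; exact hs
      filter_upwards [hopen.mem_nhds hmem] with w hw
      rw [h0 w (le_of_lt hw), mul_zero]
    exact (contDiffAt_const (c := (0:ℂ))).congr_of_eventuallyEq hev
  · have h1 : ContDiffAt ℝ 1 f z := (hf z hz).contDiffAt (hΓ.isOpen_compl.mem_nhds hz)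
    exact h1.mul hχ.contDiffAt

end Pool.Agent.H25.Ext
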