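import Mathlib
import Pool.Agent.H25.Ext.Cut

set_option autoImplicit false

/-! Assembly of the dyadic shells. -/

namespace Pool.Agent.H25.Ext

open MeasureTheory Metric Filter Topology
open scoped ENNReal Real NNReal

lemma pack_aux {A β s σ r : ℝ} (hA : 1 ≤ A) (hβ1 : 1 ≤ β) (hβ2 : β < 2) (hs : 0 < s) (hs1 : s ≤ 1)
    (hσ : 0 < σ) (hr : 0 < r) (hr4 : r ≤ 4) : 
    A * (13 * s) ^ (2 - β) * r ^ β ≤ 52 * A * s ^ (2 - β) / σ * σ * r ∧
    (r ≤ 13 * s → π * r ^ 2 ≤ 52 * A * s ^ (2 - β) / σ * σ * r) := by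
  have hA0 : 0 < A := by linarith
  have e0 : 52 * A * s ^ (2 - β) / σ * σ * r = 52 * A * s ^ (2 - β) * r := by field_simp
  rw [e0]
  constructor
  · have e1 : (13 * s) ^ (2 - β) = 13 ^ (2 - β) * s ^ (2 - β) := Real.mul_rpow (by norm_num) hs.le
    have e2 : r ^ β = r ^ (β - 1) * r := by
      rw [← Real.rpow_add_one hr.ne']; congr 1; ring
    have h1 : (13:ℝ) ^ (2 - β) ≤ 13 := by
      calc (13:ℝ) ^ (2 - β) ≤ 13 ^ (1:ℝ) := Real.rpow_le_rpow_of_exponent_le (by norm_num) (by linarith)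
        _ = 13 := Real.rpow_one _
    have h2 : r ^ (β - 1) ≤ 4 := by
      calc r ^ (β - 1) ≤ 4 ^ (β - 1) := Real.rpow_le_rpow hr.le hr4 (by linarith)
        _ ≤ 4 ^ (1:ℝ) := Real.rpow_le_rpow_of_exponent_le (by norm_num) (by linarith)
        _ = 4 := Real.rpow_one _
    rw [e1, e2]
    calc A * (13 ^ (2 - β) * s ^ (2 - β)) * (r ^ (β - 1) * r)
        ≤ A * (13 * s ^ (2 - β)) * (4 * r) := by gcongr
      _ = _ := by ring
  · intro h
    have h1 : s ≤ s ^ (2 - β) := by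
      calc s = s ^ (1:ℝ) := (Real.rpow_one _).symm
        _ ≤ s ^ (2 - β) := Real.rpow_le_rpow_of_exponent_ge hs hs1 (by linarith)
    have h2 := Real.pi_le_four
    have h3 : 0 < s ^ (2 - β) := by positivity
    calc π * r ^ 2 = π * r * r := by ring
      _ ≤ 4 * (13 * s) * r := by gcongr
      _ = 52 * 1 * s * r := by ring
      _ ≤ 52 * A * s ^ (2 - β) * r := by gcongr

lemma vol_closedBall (c : ℂ) {r : ℝ} (hr : 0 ≤ r) :
    (volume : Measure ℂ) (closedBall c r) = ENNReal.ofReal (π * r ^ 2) := by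
  have hpi : (NNReal.pi : ℝ≥0∞) = ENNReal.ofReal π := by
    rw [ENNReal.ofReal]; congr 1
    exact (Real.toNNReal_coe (r := NNReal.pi)).symm
  rw [Complex.volume_closedBall, hpi, ← ENNReal.ofReal_pow hr, ← ENNReal.ofReal_mul (by positivity)]
  congr 1
  ring

/-- shells -/
def shell (k : ℕ) (s : ℝ) (Γ : Set ℂ) : Set ℂ :=
  {z | ‖z‖ ≤ 1 ∧ s ≤ infDist z Γ ∧ (k = 0 ∨ infDist z Γ ≤ 10 * s)}

lemma shell_isClosed (k : ℕ) (s : ℝ) (Γ : Set ℂ) : IsClosed (shell k s Γ) := by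
  unfold shell
  have h1 : IsClosed {z : ℂ | ‖z‖ ≤ 1} := isClosed_le continuous_norm continuous_const
  have h2 : IsClosed {z : ℂ | s ≤ infDist z Γ} :=
    isClosed_le continuous_const (continuous_infDist_pt Γ)
  have h3 : IsClosed {z : ℂ | k = 0 ∨ infDist z Γ ≤ 10 * s} := by
    by_cases hk : k = 0
    · simp only [hk, true_or]
      exact isClosed_univ
    · simp only [hk, false_or]
      exact isClosed_le (continuous_infDist_pt Γ) continuous_const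
  exact h1.inter (h2.inter h3)

lemma shell_pack {A β : ℝ} (hA : 1 ≤ A) (hβ1 : 1 ≤ β) (hβ2 : β < 2) {Γ : Set ℂ} (hne : Γ.Nonempty)
    (hΓ : ∀ (c : ℂ) (r s : ℝ), 0 < s → s ≤ r →
      volume (cthickening s Γ ∩ closedBall c r) ≤ ENNReal.ofReal (A * s ^ (2 - β) * r ^ β))
    {k : ℕ} {s σ : ℝ} (hs : 0 < s) (hs1 : s ≤ 1) (hk : k = 0 → s = 1) (hσ : 0 < σ) (hσs : σ ≤ s)
    (c : ℂ) (r : ℝ) (h1 : σ ≤ r) (h2 : r ≤ 4) :
    volume (thickening (3 * σ) (shell k s Γ) ∩ closedBall c r) ≤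
      ENNReal.ofReal (52 * A * s ^ (2 - β) / σ * σ * r) := by
  have hr : 0 < r := lt_of_lt_of_le hσ h1
  obtain ⟨a1, a2⟩ := pack_aux hA hβ1 hβ2 hs hs1 hσ hr h2
  rcases le_or_gt r (13 * s) with hr1 | hr1
  · calc volume (thickening (3 * σ) (shell k s Γ) ∩ closedBall c r) ≤ volume (closedBall c r) :=
          measure_mono Set.inter_subset_right
      _ = ENNReal.ofReal (π * r ^ 2) := vol_closedBall c hr.le
      _ ≤ _ := ENNReal.ofReal_le_ofReal (a2 hr1)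
  · have hk0 : k ≠ 0 := by
      intro h
      have := hk h
      linarith
    have hsub : thickening (3 * σ) (shell k s Γ) ⊆ cthickening (13 * s) Γ := by
      intro z hz
      rw [mem_thickening_iff] at hz
      obtain ⟨y, hy, hzy⟩ := hz
      have hy2 : infDist y Γ ≤ 10 * s := by
        rcases hy.2.2 with h | h
        · exact absurd h hk0
        · exact h
      have h3 : infDist z Γ ≤ infDist y Γ + dist z y := infDist_le_infDist_add_dist
      rw [mem_cthickening_iff]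
      have h4 : infEDist z Γ ≠ ⊤ := infEDist_ne_top hne
      rw [← ENNReal.ofReal_toReal h4]
      apply ENNReal.ofReal_le_ofReal
      show infDist z Γ ≤ 13 * s
      linarith
    calc volume (thickening (3 * σ) (shell k s Γ) ∩ closedBall c r)
        ≤ volume (cthickening (13 * s) Γ ∩ closedBall c r) :=
          measure_mono (Set.inter_subset_inter_left _ hsub)
      _ ≤ ENNReal.ofReal (A * (13 * s) ^ (2 - β) * r ^ β) := hΓ c r (13 * s) (by positivity) hr1.le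
      _ ≤ _ := ENNReal.ofReal_le_ofReal a1

/-- dyadic scale -/
noncomputable def sk (k : ℕ) : ℝ := (1 / 2 : ℝ) ^ k

lemma sk_pos (k : ℕ) : 0 < sk k := by unfold sk; positivity

lemma sk_le_one (k : ℕ) : sk k ≤ 1 := by
  unfold sk; exact pow_le_one₀ (by norm_num) (by norm_num)

lemma sk_succ (k : ℕ) : sk k = 2 * sk (k + 1) := by
  unfold sk; rw [pow_succ]; ring

lemma sk_N (k : ℕ) : 1 ≤ ((2 ^ k : ℕ) : ℝ) * sk k := by
  unfold sk
  push_cast
  rw [← mul_pow]; norm_num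

/-- shell cut-offs -/
noncomputable def chi (Γ : Set ℂ) (k : ℕ) (z : ℂ) : ℂ :=
  match k with
  | 0 => hc (sk 0) (2 ^ 0) Γ z
  | k + 1 => hc (sk (k + 1)) (2 ^ (k + 1)) Γ z - hc (sk k) (2 ^ k) Γ z

lemma sum_chi (Γ : Set ℂ) (K : ℕ) (z : ℂ) :
    ∑ k ∈ Finset.range (K + 1), chi Γ k z = hc (sk K) (2 ^ K) Γ z := by
  induction K with
  | zero => simp [chi]
  | succ K ih =>
    rw [Finset.sum_range_succ, ih]
    unfold chi
    ring

lemma chi_contDiff (Γ : Set ℂ) (k : ℕ) : ContDiff ℝ 1 (chi Γ k) := by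
  cases k with
  | zero => exact hc_contDiff _ _ _
  | succ k => exact (hc_contDiff _ _ _).sub (hc_contDiff _ _ _)

lemma norm_chi_le (Γ : Set ℂ) (k : ℕ) (z : ℂ) : ‖chi Γ k z‖ ≤ 1 := by
  cases k with
  | zero => exact norm_hc_le _ _ _ _
  | succ k => exact norm_hc_sub_le _ _ _ _ _ _

lemma norm_fderiv_chi_le (Γ : Set ℂ) (k : ℕ) (z : ℂ) :
    ‖fderiv ℝ (chi Γ k) z‖ ≤ 36 * lipM / sk k := by
  have hM : (0:ℝ) ≤ lipM := lipM.coe_nonneg
  have hsk := sk_pos k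
  cases k with
  | zero =>
    refine (norm_fderiv_hc_le (sk_pos 0) _ Γ z).trans ?_
    gcongr
    norm_num
  | succ k =>
    have h1 : fderiv ℝ (chi Γ (k + 1)) z =
        fderiv ℝ (hc (sk (k + 1)) (2 ^ (k + 1)) Γ) z - fderiv ℝ (hc (sk k) (2 ^ k) Γ) z :=
      fderiv_fun_sub ((hc_contDiff _ _ _).differentiable one_ne_zero z)
        ((hc_contDiff _ _ _).differentiable one_ne_zero z)
    rw [h1]
    refine (norm_sub_le _ _).trans ?_
    have h2 := norm_fderiv_hc_le (sk_pos (k + 1)) (2 ^ (k + 1)) Γ z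
    have h3 := norm_fderiv_hc_le (sk_pos k) (2 ^ k) Γ z
    have h4 : 18 * (lipM : ℝ) / sk k ≤ 18 * lipM / sk (k + 1) := by
      apply div_le_div_of_nonneg_left (by positivity) (sk_pos (k + 1))
      rw [sk_succ k]
      have := sk_pos (k + 1)
      linarith
    calc _ ≤ 18 * (lipM : ℝ) / sk (k + 1) + 18 * lipM / sk (k + 1) := by linarith
      _ = _ := by ring

lemma chi_eq_zero_near {Γ : Set ℂ} {k : ℕ} {z : ℂ} (hz : infDist z Γ ≤ sk k) : chi Γ k z = 0 := by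
  cases k with
  | zero => exact hc_eq_zero (sk_pos 0) hz
  | succ k =>
    show hc (sk (k + 1)) (2 ^ (k + 1)) Γ z - hc (sk k) (2 ^ k) Γ z = 0
    rw [hc_eq_zero (sk_pos (k + 1)) hz, hc_eq_zero (sk_pos k) ?_, sub_zero]
    rw [sk_succ k]
    have := sk_pos (k + 1)
    linarith

lemma chi_eq_zero_far {Γ : Set ℂ} {k : ℕ} {z : ℂ} (hk : k ≠ 0) (hz1 : ‖z‖ ≤ 1)
    (hz : 10 * sk k ≤ infDist z Γ) : chi Γ k z = 0 := by
  cases k with
  | zero => exact absurd rfl hk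
  | succ k =>
    show hc (sk (k + 1)) (2 ^ (k + 1)) Γ z - hc (sk k) (2 ^ k) Γ z = 0
    have h1 := sk_succ k
    have h2 := sk_pos (k + 1)
    rw [hc_eq_one (sk_pos (k + 1)) (sk_N (k + 1)) hz1 (by linarith),
      hc_eq_one (sk_pos k) (sk_N k) hz1 (by linarith), sub_self]

/-- pieces of `f` on shells -/
noncomputable def Fk (Γ : Set ℂ) (f : ℂ → ℂ) (k : ℕ) (z : ℂ) : ℂ := f z * chi Γ k z

lemma Fk_contDiff {Γ : Set ℂ} (hΓ : IsClosed Γ) {f : ℂ → ℂ} (hf : ContDiffOn ℝ 1 f Γᶜ) (k : ℕ) :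
    ContDiff ℝ 1 (Fk Γ f k) :=
  cut_contDiff hΓ hf (chi_contDiff Γ k) (sk_pos k) fun _ hz => chi_eq_zero_near hz

lemma Fk_eq_zero {Γ : Set ℂ} {f : ℂ → ℂ} (hf0 : ∀ z, 1 < ‖z‖ → f z = 0) {k : ℕ} {z : ℂ}
    (hz : z ∉ shell k (sk k) Γ) : Fk Γ f k z = 0 := by
  unfold Fk
  by_cases h1 : ‖z‖ ≤ 1
  · by_cases h2 : sk k ≤ infDist z Γ
    · by_cases h3 : k = 0 ∨ infDist z Γ ≤ 10 * sk k
      · exact absurd ⟨h1, h2, h3⟩ hz
      · push Not at h3
        rw [chi_eq_zero_far h3.1 h1 h3.2.le, mul_zero]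
    · rw [chi_eq_zero_near (not_le.mp h2).le, mul_zero]
  · rw [hf0 z (not_le.mp h1), zero_mul]

lemma Fk_W {κ : ℝ} (hκ : 1 ≤ κ) {Γ : Set ℂ} (hΓ : IsClosed Γ) {f : ℂ → ℂ}
    (hf : ContDiffOn ℝ 1 f Γᶜ) (hf0 : ∀ z, 1 < ‖z‖ → f z = 0) (k : ℕ) (z : ℂ) :
    Wf (sk k ^ κ) (Fk Γ f k) z ≤ (1 + 36 * lipM) * Xf κ Γ f z := by
  have hM : (0:ℝ) ≤ lipM := lipM.coe_nonneg
  have hX : 0 ≤ Xf κ Γ f z := by
    unfold Xf
    have := wt_nonneg κ Γ z
    positivity
  have hsk := sk_pos k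
  by_cases hz : z ∈ shell k (sk k) Γ
  · obtain ⟨h1, h2, h3⟩ := hz
    have hzΓ : z ∉ Γ := by
      intro h
      rw [infDist_zero_of_mem h] at h2
      linarith
    have hfd : DifferentiableAt ℝ f z :=
      ((hf z hzΓ).contDiffAt (hΓ.isOpen_compl.mem_nhds hzΓ)).differentiableAt one_ne_zero
    have hχd : DifferentiableAt ℝ (chi Γ k) z := (chi_contDiff Γ k).differentiable one_ne_zero z
    have e : dbar (Fk Γ f k) z = f z * dbar (chi Γ k) z + chi Γ k z * dbar f z := dbar_mul hfd hχd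
    have h4 : ‖dbar (chi Γ k) z‖ ≤ 36 * lipM / sk k :=
      (norm_dbar_le _ _).trans (norm_fderiv_chi_le Γ k z)
    have h5 := norm_chi_le Γ k z
    have h6 : ‖Fk Γ f k z‖ ≤ ‖f z‖ := by
      unfold Fk
      rw [norm_mul]
      have := norm_nonneg (f z)
      nlinarith
    have hσ1 : sk k ^ κ ≤ sk k := by
      calc sk k ^ κ ≤ sk k ^ (1:ℝ) := Real.rpow_le_rpow_of_exponent_ge hsk (sk_le_one k) hκ
        _ = sk k := Real.rpow_one _
    have hσ2 : sk k ^ κ ≤ wt κ Γ z := by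
      unfold wt
      exact Real.rpow_le_rpow hsk.le (le_min (sk_le_one k) h2) (by linarith)
    have h7 : ‖dbar (Fk Γ f k) z‖ ≤ ‖f z‖ * (36 * lipM / sk k) + 1 * ‖dbar f z‖ := by
      rw [e]
      refine (norm_add_le _ _).trans ?_
      rw [norm_mul, norm_mul]
      gcongr
    have hσ0 : 0 < sk k ^ κ := by positivity
    have h8 : sk k ^ κ * (‖f z‖ * (36 * lipM / sk k)) ≤ 36 * lipM * ‖f z‖ := by
      calc sk k ^ κ * (‖f z‖ * (36 * lipM / sk k)) ≤ sk k * (‖f z‖ * (36 * lipM / sk k)) := by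
            gcongr
        _ = _ := by field_simp
    have h9 : sk k ^ κ * ‖dbar f z‖ ≤ wt κ Γ z * ‖dbar f z‖ := by gcongr
    unfold Wf Xf
    calc ‖Fk Γ f k z‖ + sk k ^ κ * ‖dbar (Fk Γ f k) z‖
        ≤ ‖f z‖ + sk k ^ κ * (‖f z‖ * (36 * lipM / sk k) + 1 * ‖dbar f z‖) := by gcongr
      _ = ‖f z‖ + sk k ^ κ * (‖f z‖ * (36 * lipM / sk k)) + sk k ^ κ * ‖dbar f z‖ := by ring
      _ ≤ ‖f z‖ + 36 * lipM * ‖f z‖ + wt κ Γ z * ‖dbar f z‖ := by gcongr
      _ ≤ _ := by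
          have h10 : 0 ≤ wt κ Γ z * ‖dbar f z‖ := by have := wt_nonneg κ Γ z; positivity
          nlinarith [mul_nonneg hM h10]
  · have hev : Fk Γ f k =ᶠ[𝓝 z] fun _ => 0 := by
      filter_upwards [(shell_isClosed k (sk k) Γ).isOpen_compl.mem_nhds hz] with w hw
      exact Fk_eq_zero hf0 hw
    have h1 : dbar (Fk Γ f k) z = 0 := by
      unfold dbar
      rw [hev.fderiv_eq]
      simp
    unfold Wf
    rw [h1, Fk_eq_zero hf0 hz, norm_zero, mul_zero, add_zero]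
    positivity

end Pool.Agent.H25.Ext
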