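import Mathlib
import Pool.Agent.H25.Ext.Main

set_option autoImplicit false

/-! Summation over the shells and the main theorem. -/

namespace Pool.Agent.H25.Ext

open MeasureTheory Metric Filter Topology
open scoped ENNReal Real NNReal

lemma eLpNorm_ofReal {α : Type*} [MeasurableSpace α] {μ : Measure α} {q : ℝ} (hq : 0 < q)
    (g : α → ℂ) : eLpNorm g (ENNReal.ofReal q) μ = (∫⁻ x, ‖g x‖ₑ ^ q ∂μ) ^ (1 / q) := by
  rw [eLpNorm_eq_lintegral_rpow_enorm_toReal (by simpa using hq) ENNReal.ofReal_ne_top,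
    ENNReal.toReal_ofReal hq.le]

lemma Fk_integrable {Γ : Set ℂ} (hΓ : IsClosed Γ) {f : ℂ → ℂ} (hf : ContDiffOn ℝ 1 f Γᶜ)
    (hf0 : ∀ z, 1 < ‖z‖ → f z = 0) (k : ℕ) : Integrable (Fk Γ f k) := by
  have h1 := (Fk_contDiff hΓ hf k).continuous
  refine h1.integrable_of_hasCompactSupport ?_
  refine HasCompactSupport.of_support_subset_isCompact (isCompact_closedBall (0:ℂ) 1) ?_
  intro z hz
  by_contra h
  apply hz
  rw [mem_closedBall_zero_iff, not_le] at h
  unfold Fk
  rw [hf0 z h, zero_mul]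

theorem shell_est {q β κ : ℝ} (hq : 3 < q) (hβ1 : 1 ≤ β) (hβ2 : β < 2) (hκ : 1 ≤ κ) :
    ∃ C : ℝ, 0 < C ∧ ∀ A : ℝ, 1 ≤ A → ∀ Γ : Set ℂ, IsClosed Γ → Γ.Nonempty →
    (∀ (c : ℂ) (r s : ℝ), 0 < s → s ≤ r →
      volume (cthickening s Γ ∩ closedBall c r) ≤ ENNReal.ofReal (A * s ^ (2 - β) * r ^ β)) →
    ∀ f : ℂ → ℂ, (∀ z, 1 < ‖z‖ → f z = 0) → ContDiffOn ℝ 1 f Γᶜ → ∀ k : ℕ,
    eLpNorm (fun p : ℂ × ℝ => ext (Fk Γ f k) p.1 p.2) (ENNReal.ofReal q) volume ≤
      ENNReal.ofReal (C * A ^ ((q - 2) / q) * ((κ * k + 5) *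
        ((1 / 2) ^ (((2 - β) * (q - 2) - κ) / q)) ^ k)) *
      (∫⁻ z, ENNReal.ofReal (Xf κ Γ f z) ^ q) ^ (1 / q) := by
  have hq0 : 0 < q := by linarith
  obtain ⟨C, hC, hss⟩ := single_scale hq
  set C3 : ℝ := 1 + 36 * lipM with hC3
  have hC3p : 0 < C3 := by have := lipM.coe_nonneg; rw [hC3]; positivity
  obtain ⟨D, hD⟩ : ∃ D : ℝ, D = C * 52 ^ (q - 2) * C3 ^ q := ⟨_, rfl⟩
  have hDp : 0 < D := by rw [hD]; positivity
  refine ⟨D ^ (1 / q), by positivity, ?_⟩
  intro A hA Γ hΓ hne hreg f hf0 hf k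
  have hA0 : 0 < A := by linarith
  set s := sk k with hs
  have hs0 : 0 < s := sk_pos k
  have hs1 : s ≤ 1 := sk_le_one k
  set σ := s ^ κ with hσ
  have hσ0 : 0 < σ := by positivity
  have hσs : σ ≤ s := by
    calc s ^ κ ≤ s ^ (1:ℝ) := Real.rpow_le_rpow_of_exponent_ge hs0 hs1 hκ
      _ = s := Real.rpow_one _
  set Θ := 52 * A * s ^ (2 - β) / σ with hΘ
  have hΘ0 : 0 < Θ := by positivity
  set N := ⌈1 / σ⌉₊ with hN
  have hN1 : 1 ≤ (N:ℝ) * σ := by
    have := Nat.le_ceil (1 / σ)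
    rw [div_le_iff₀ hσ0] at this
    exact this
  set M := ⌈κ * k⌉₊ + 2 with hM
  have hκk : 0 ≤ κ * k := by positivity
  have hMu : (M:ℝ) + 2 ≤ κ * k + 5 := by
    have := Nat.ceil_lt_add_one hκk
    rw [hM]; push_cast; linarith
  have hM1 : 3 ≤ (2:ℝ) ^ M * σ := by
    have h1 : κ * k ≤ (⌈κ * k⌉₊ : ℝ) := Nat.le_ceil _
    have h2 : σ = (2:ℝ) ^ (-(κ * k)) := by
      rw [hσ, hs]
      unfold sk
      rw [← Real.rpow_natCast, ← Real.rpow_mul (by norm_num), one_div, Real.inv_rpow (by norm_num),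
        Real.rpow_neg (by norm_num)]
      congr 2
      ring
    rw [h2, ← Real.rpow_natCast, ← Real.rpow_add (by norm_num)]
    calc (3:ℝ) ≤ 2 ^ (2:ℝ) := by norm_num
      _ ≤ 2 ^ ((M:ℝ) + -(κ * k)) := by
        apply Real.rpow_le_rpow_of_exponent_le (by norm_num)
        rw [hM]; push_cast; linarith
  have hk0 : k = 0 → s = 1 := by
    intro h
    rw [hs, h]
    unfold sk
    simp
  have hmain := hss (s := σ) (Θ := Θ) (N := N) (M := M) hσ0 (hσs.trans hs1) hN1 hM1 hΘ0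
    (S := shell k s Γ)
    (by intro z hz; rw [mem_closedBall_zero_iff]; exact hz.1)
    (fun c r h1 h2 => shell_pack hA hβ1 hβ2 hne hreg hs0 hs1 hk0 hσ0 hσs c r h1 h2)
    (F := Fk Γ f k) (Fk_contDiff hΓ hf k) (fun z hz => Fk_eq_zero hf0 hz)
  set X := ∫⁻ z, ENNReal.ofReal (Xf κ Γ f z) ^ q with hX
  have hW : ∫⁻ z, ENNReal.ofReal (Wf σ (Fk Γ f k) z) ^ q ≤ ENNReal.ofReal (C3 ^ q) * X := by
    rw [hX, ← lintegral_const_mul' _ _ ENNReal.ofReal_ne_top]
    refine lintegral_mono fun z => ?_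
    have h1 := Fk_W hκ hΓ hf hf0 k z
    have hXn : 0 ≤ Xf κ Γ f z := by
      unfold Xf
      have := wt_nonneg κ Γ z
      positivity
    calc ENNReal.ofReal (Wf σ (Fk Γ f k) z) ^ q ≤ ENNReal.ofReal (C3 * Xf κ Γ f z) ^ q := by
          gcongr
      _ = ENNReal.ofReal (C3 ^ q) * ENNReal.ofReal (Xf κ Γ f z) ^ q := by
          rw [ENNReal.ofReal_mul hC3p.le, ENNReal.mul_rpow_of_nonneg _ _ hq0.le,
            ENNReal.ofReal_rpow_of_pos hC3p]
  set ρ : ℝ := (1 / 2) ^ (((2 - β) * (q - 2) - κ) / q) with hρ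
  have hρ0 : 0 < ρ := by positivity
  set Y : ℝ := D ^ (1 / q) * A ^ ((q - 2) / q) * ((κ * k + 5) * ρ ^ k) with hY
  have hY0 : 0 ≤ Y := by positivity
  have hYq : C * (Θ * (M + 2)) ^ (q - 2) * σ ^ (q - 3) * C3 ^ q ≤ Y ^ q := by
    have e1 : Θ ^ (q - 2) = 52 ^ (q - 2) * A ^ (q - 2) * s ^ ((2 - β) * (q - 2)) * σ ^ (-(q - 2)) := by
      rw [hΘ, Real.div_rpow (by positivity) hσ0.le, Real.mul_rpow (by positivity) (by positivity),
        Real.mul_rpow (by positivity) hA0.le, ← Real.rpow_mul hs0.le, Real.rpow_neg hσ0.le,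
        div_eq_mul_inv]
    have e2 : σ ^ (-(q - 2)) * σ ^ (q - 3) = s ^ (-κ) := by
      rw [← Real.rpow_add hσ0, hσ, ← Real.rpow_mul hs0.le]
      congr 1
      ring
    have e3 : s ^ ((2 - β) * (q - 2)) * s ^ (-κ) = (ρ ^ k) ^ q := by
      rw [← Real.rpow_add hs0, hs, hρ]
      unfold sk
      rw [← Real.rpow_natCast, ← Real.rpow_natCast, ← Real.rpow_mul (by positivity),
        ← Real.rpow_mul (by positivity), ← Real.rpow_mul (by positivity)]
      congr 1
      field_simp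
      ring
    have e4 : Y ^ q = D * A ^ (q - 2) * (κ * k + 5) ^ q * (ρ ^ k) ^ q := by
      rw [hY, Real.mul_rpow (by positivity) (by positivity), Real.mul_rpow (by positivity) (by positivity),
        Real.mul_rpow (by positivity) (by positivity), ← Real.rpow_mul hDp.le,
        one_div_mul_cancel hq0.ne', Real.rpow_one, ← Real.rpow_mul hA0.le, div_mul_cancel₀ _ hq0.ne']
      ring
    have h1 : ((M:ℝ) + 2) ^ (q - 2) ≤ (κ * k + 5) ^ q := by
      calc ((M:ℝ) + 2) ^ (q - 2) ≤ (κ * k + 5) ^ (q - 2) :=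
            Real.rpow_le_rpow (by positivity) hMu (by linarith)
        _ ≤ (κ * k + 5) ^ q := Real.rpow_le_rpow_of_exponent_le (by linarith) (by linarith)
    rw [Real.mul_rpow hΘ0.le (by positivity), e1, e4, ← e3]
    calc C * (52 ^ (q - 2) * A ^ (q - 2) * s ^ ((2 - β) * (q - 2)) * σ ^ (-(q - 2)) *
          ((M:ℝ) + 2) ^ (q - 2)) * σ ^ (q - 3) * C3 ^ q
        = D * A ^ (q - 2) * ((M:ℝ) + 2) ^ (q - 2) *
            (s ^ ((2 - β) * (q - 2)) * (σ ^ (-(q - 2)) * σ ^ (q - 3))) := by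
          rw [hD]; ring
      _ ≤ D * A ^ (q - 2) * (κ * k + 5) ^ q *
            (s ^ ((2 - β) * (q - 2)) * (σ ^ (-(q - 2)) * σ ^ (q - 3))) := by gcongr
      _ = _ := by rw [e2]
  rw [eLpNorm_ofReal hq0]
  calc (∫⁻ p : ℂ × ℝ, ‖ext (Fk Γ f k) p.1 p.2‖ₑ ^ q) ^ (1 / q)
      ≤ (ENNReal.ofReal (Y ^ q) * X) ^ (1 / q) := by
        apply ENNReal.rpow_le_rpow _ (by positivity)
        refine hmain.trans ?_
        calc _ ≤ ENNReal.ofReal (C * (Θ * (M + 2)) ^ (q - 2) * σ ^ (q - 3)) *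
              (ENNReal.ofReal (C3 ^ q) * X) := by gcongr
          _ = ENNReal.ofReal (C * (Θ * (M + 2)) ^ (q - 2) * σ ^ (q - 3) * C3 ^ q) * X := by
              rw [← mul_assoc, ← ENNReal.ofReal_mul (by positivity)]
          _ ≤ _ := by gcongr
    _ = ENNReal.ofReal Y * X ^ (1 / q) := by
        rw [ENNReal.mul_rpow_of_nonneg _ _ (by positivity),
          ENNReal.ofReal_rpow_of_nonneg (by positivity) (by positivity), ← Real.rpow_mul hY0,
          mul_one_div_cancel hq0.ne', Real.rpow_one]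

lemma null_of_reg {A β : ℝ} (hβ2 : β < 2) {Γ : Set ℂ}
    (hΓ : ∀ (c : ℂ) (r s : ℝ), 0 < s → s ≤ r →
      volume (cthickening s Γ ∩ closedBall c r) ≤ ENNReal.ofReal (A * s ^ (2 - β) * r ^ β)) :
    (volume : Measure ℂ) Γ = 0 := by
  have h1 : ∀ n : ℕ, (volume : Measure ℂ) (Γ ∩ closedBall 0 (n + 1)) = 0 := by
    intro n
    have hlim : Tendsto (fun s : ℝ => ENNReal.ofReal (A * s ^ (2 - β) * ((n:ℝ) + 1) ^ β))
        (𝓝[>] 0) (𝓝 0) := by
      have h2 : Tendsto (fun s : ℝ => A * s ^ (2 - β) * ((n:ℝ) + 1) ^ β) (𝓝 0) (𝓝 0) := by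
        have h3 : Tendsto (fun s : ℝ => s ^ (2 - β)) (𝓝 0) (𝓝 ((0:ℝ) ^ (2 - β))) :=
          (Real.continuousAt_rpow_const 0 (2 - β) (Or.inr (by linarith))).tendsto
        rw [Real.zero_rpow (by linarith)] at h3
        have h4 := (h3.const_mul A).mul_const (((n:ℝ) + 1) ^ β)
        simpa using h4
      have h5 := (ENNReal.continuous_ofReal.tendsto 0).comp
        (h2.mono_left (nhdsWithin_le_nhds (s := Set.Ioi (0:ℝ))))
      rw [ENNReal.ofReal_zero] at h5
      exact h5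
    have hle : ∀ᶠ s : ℝ in 𝓝[>] 0, (volume : Measure ℂ) (Γ ∩ closedBall 0 (n + 1)) ≤
        ENNReal.ofReal (A * s ^ (2 - β) * ((n:ℝ) + 1) ^ β) := by
      have : ∀ᶠ s : ℝ in 𝓝[>] 0, s ∈ Set.Ioo 0 ((n:ℝ) + 1) :=
        Ioo_mem_nhdsGT (by positivity)
      filter_upwards [this] with s hs
      refine (measure_mono (Set.inter_subset_inter_left _ ?_)).trans
        (hΓ 0 ((n:ℝ) + 1) s hs.1 hs.2.le)
      exact self_subset_cthickening Γ
    exact le_antisymm (ge_of_tendsto hlim hle) zero_le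
  have h2 : Γ ⊆ ⋃ n : ℕ, Γ ∩ closedBall 0 (n + 1) := by
    intro z hz
    obtain ⟨n, hn⟩ := exists_nat_ge ‖z‖
    rw [Set.mem_iUnion]
    refine ⟨n, hz, ?_⟩
    rw [mem_closedBall_zero_iff]
    linarith
  exact measure_mono_null h2 (measure_iUnion_null h1)

lemma summable_geo {κ ρ : ℝ} (hρ0 : 0 < ρ) (hρ1 : ρ < 1) :
    Summable (fun k : ℕ => (κ * k + 5) * ρ ^ k) := by
  have h1 : Summable (fun k : ℕ => ((k:ℝ) ^ 1 * ρ ^ k : ℝ)) :=
    summable_pow_mul_geometric_of_norm_lt_one 1 (by rwa [Real.norm_of_nonneg hρ0.le])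
  have h2 : Summable (fun k : ℕ => ρ ^ k) := summable_geometric_of_lt_one hρ0.le hρ1
  have h3 := (h1.mul_left κ).add (h2.mul_left 5)
  refine h3.congr fun k => ?_
  rw [pow_one]
  ring

/-- The main estimate. -/
theorem main_est {q β κ : ℝ} (hq : 3 < q) (hβ1 : 1 ≤ β) (hβ2 : β < 2) (hκ : 1 ≤ κ)
    (hκ2 : κ < (2 - β) * (q - 2)) :
    ∃ C : ℝ, 0 < C ∧ ∀ A : ℝ, 1 ≤ A → ∀ Γ : Set ℂ, IsClosed Γ → Γ.Nonempty →
    (∀ (c : ℂ) (r s : ℝ), 0 < s → s ≤ r →
      volume (cthickening s Γ ∩ closedBall c r) ≤ ENNReal.ofReal (A * s ^ (2 - β) * r ^ β)) →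
    ∀ f : ℂ → ℂ, (∀ z, 1 < ‖z‖ → f z = 0) → ContDiffOn ℝ 1 f Γᶜ →
    eLpNorm (fun p : ℂ × ℝ => ext f p.1 p.2) (ENNReal.ofReal q) volume ≤
      ENNReal.ofReal (C * A ^ ((q - 2) / q)) *
        (eLpNorm f (ENNReal.ofReal q) volume +
          eLpNorm (fun z => (wt κ Γ z : ℂ) * dbar f z) (ENNReal.ofReal q) volume) := by
  have hq0 : 0 < q := by linarith
  obtain ⟨C, hC, hshell⟩ := shell_est hq hβ1 hβ2 hκ
  set ρ : ℝ := (1 / 2) ^ (((2 - β) * (q - 2) - κ) / q) with hρ
  have hρ0 : 0 < ρ := by positivity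
  have hρ1 : ρ < 1 := by
    apply Real.rpow_lt_one (by norm_num) (by norm_num)
    have : 0 < (2 - β) * (q - 2) - κ := by linarith
    positivity
  have hsum := summable_geo (κ := κ) hρ0 hρ1
  set T : ℝ := ∑' k : ℕ, (κ * k + 5) * ρ ^ k with hT
  have hT0 : 0 < T := by
    have h1 : (κ * (0:ℕ) + 5) * ρ ^ 0 ≤ T := hsum.le_tsum 0 (fun j _ => by positivity)
    have h2 : (κ * (0:ℕ) + 5) * ρ ^ 0 = 5 := by simp
    linarith
  refine ⟨C * T, by positivity, ?_⟩
  intro A hA Γ hΓ hne hreg f hf0 hf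
  have hA0 : 0 < A := by linarith
  have hnull := null_of_reg hβ2 hreg
  have hcst : 0 < C * T * A ^ ((q - 2) / q) := by positivity
  -- measurability
  have hfm : AEStronglyMeasurable f volume := by
    have h1 : AEStronglyMeasurable f (volume.restrict Γᶜ) :=
      hf.continuousOn.aestronglyMeasurable hΓ.isOpen_compl.measurableSet
    have h2 : (volume : Measure ℂ).restrict Γᶜ = volume := by
      apply Measure.restrict_eq_self_of_ae_mem
      exact compl_mem_ae_iff.mpr hnull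
    rwa [h2] at h1
  have hdm : AEStronglyMeasurable (fun z => (wt κ Γ z : ℂ) * dbar f z) volume := by
    have h1 : ContinuousOn (fun z => (wt κ Γ z : ℂ) * dbar f z) Γᶜ := by
      have h3 : ContinuousOn (fun z => fderiv ℝ f z) Γᶜ :=
        hf.continuousOn_fderiv_of_isOpen hΓ.isOpen_compl le_rfl
      have h4 : ContinuousOn (dbar f) Γᶜ := by
        unfold dbar
        refine ContinuousOn.div_const (ContinuousOn.add ?_ (continuousOn_const.mul ?_)) 2
        · exact h3.clm_apply continuousOn_const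
        · exact h3.clm_apply continuousOn_const
      have h5 : Continuous (fun z => (wt κ Γ z : ℂ)) := by
        unfold wt
        refine Complex.continuous_ofReal.comp ?_
        refine Continuous.rpow_const ?_ fun z => Or.inr (by linarith)
        exact continuous_const.min (continuous_infDist_pt Γ)
      exact h5.continuousOn.mul h4
    have h2 : AEStronglyMeasurable (fun z => (wt κ Γ z : ℂ) * dbar f z) (volume.restrict Γᶜ) :=
      h1.aestronglyMeasurable hΓ.isOpen_compl.measurableSet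
    have h3 : (volume : Measure ℂ).restrict Γᶜ = volume := by
      apply Measure.restrict_eq_self_of_ae_mem
      exact compl_mem_ae_iff.mpr hnull
    rwa [h3] at h2
  by_cases hinf : eLpNorm f (ENNReal.ofReal q) volume = ⊤
  · rw [hinf, top_add, ENNReal.mul_top]
    · exact le_top
    · simpa using hcst
  have hq1 : (1:ℝ≥0∞) ≤ ENNReal.ofReal q := by
    rw [← ENNReal.ofReal_one]
    exact ENNReal.ofReal_le_ofReal (by linarith)
  -- integrability
  have hfi : Integrable f := by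
    have h1 : MemLp f (ENNReal.ofReal q) (volume.restrict (closedBall (0:ℂ) 1)) :=
      ⟨hfm.restrict, (eLpNorm_mono_measure _ Measure.restrict_le_self).trans_lt (lt_top_iff_ne_top.mpr hinf)⟩
    have : IsFiniteMeasure ((volume : Measure ℂ).restrict (closedBall (0:ℂ) 1)) :=
      ⟨by rw [Measure.restrict_apply_univ]; exact measure_closedBall_lt_top⟩
    have h2 : IntegrableOn f (closedBall (0:ℂ) 1) := h1.integrable hq1
    refine h2.integrable_of_forall_notMem_eq_zero ?_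
    intro z hz
    rw [mem_closedBall_zero_iff, not_le] at hz
    exact hf0 z hz
  -- the density
  set X := ∫⁻ z, ENNReal.ofReal (Xf κ Γ f z) ^ q with hX
  have hXle : X ^ (1 / q) ≤ eLpNorm f (ENNReal.ofReal q) volume +
      eLpNorm (fun z => (wt κ Γ z : ℂ) * dbar f z) (ENNReal.ofReal q) volume := by
    have h1 : X ^ (1 / q) = eLpNorm (fun z => ‖f z‖ + ‖(wt κ Γ z : ℂ) * dbar f z‖)
        (ENNReal.ofReal q) volume := by
      rw [eLpNorm_eq_lintegral_rpow_enorm_toReal (by simpa using hq0) ENNReal.ofReal_ne_top,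
        ENNReal.toReal_ofReal hq0.le, hX]
      congr 2
      funext z
      have h2 : ‖(wt κ Γ z : ℂ) * dbar f z‖ = wt κ Γ z * ‖dbar f z‖ := by
        rw [norm_mul, Complex.norm_real, Real.norm_of_nonneg (wt_nonneg κ Γ z)]
      rw [h2]
      have h3 : 0 ≤ ‖f z‖ + wt κ Γ z * ‖dbar f z‖ := by
        have := wt_nonneg κ Γ z
        positivity
      rw [Real.enorm_eq_ofReal h3]
      rfl
    rw [h1]
    refine (eLpNorm_add_le hfm.norm hdm.norm hq1).trans ?_
    rw [eLpNorm_norm, eLpNorm_norm]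
  -- partial sums
  set G : ℕ → ℂ × ℝ → ℂ := fun K p => ∑ k ∈ Finset.range (K + 1), ext (Fk Γ f k) p.1 p.2 with hG
  have hFi := Fk_integrable hΓ hf hf0
  have hextm : ∀ k, Continuous (fun p : ℂ × ℝ => ext (Fk Γ f k) p.1 p.2) := fun k =>
    ext_continuous (hFi k)
  have hbound : ∀ K, eLpNorm (G K) (ENNReal.ofReal q) volume ≤
      ENNReal.ofReal (C * T * A ^ ((q - 2) / q)) * X ^ (1 / q) := by
    intro K
    have h1 : G K = ∑ k ∈ Finset.range (K + 1), (fun p : ℂ × ℝ => ext (Fk Γ f k) p.1 p.2) := by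
      funext p
      rw [hG, Finset.sum_apply]
    rw [h1]
    refine (eLpNorm_sum_le (fun k _ => (hextm k).aestronglyMeasurable) hq1).trans ?_
    calc ∑ k ∈ Finset.range (K + 1), eLpNorm (fun p : ℂ × ℝ => ext (Fk Γ f k) p.1 p.2)
          (ENNReal.ofReal q) volume
        ≤ ∑ k ∈ Finset.range (K + 1), ENNReal.ofReal (C * A ^ ((q - 2) / q) * ((κ * k + 5) * ρ ^ k)) *
            X ^ (1 / q) := Finset.sum_le_sum fun k _ => hshell A hA Γ hΓ hne hreg f hf0 hf k
      _ = ENNReal.ofReal (∑ k ∈ Finset.range (K + 1), C * A ^ ((q - 2) / q) *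
            ((κ * k + 5) * ρ ^ k)) * X ^ (1 / q) := by
          rw [← Finset.sum_mul, ENNReal.ofReal_sum_of_nonneg fun k _ => by positivity]
      _ ≤ _ := by
          gcongr
          rw [← Finset.mul_sum]
          have h2 : ∑ k ∈ Finset.range (K + 1), (κ * k + 5) * ρ ^ k ≤ T :=
            hsum.sum_le_tsum _ fun k _ => by positivity
          calc C * A ^ ((q - 2) / q) * ∑ k ∈ Finset.range (K + 1), (κ * k + 5) * ρ ^ k
              ≤ C * A ^ ((q - 2) / q) * T := by gcongr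
            _ = _ := by ring
  -- pointwise convergence
  have hconv : ∀ p : ℂ × ℝ, Tendsto (fun K => G K p) atTop (𝓝 (ext f p.1 p.2)) := by
    intro p
    have h1 : ∀ K, G K p = ∫ z, Complex.exp (-(Complex.I * (ph p.1 p.2 z : ℂ))) *
        (f z * hc (sk K) (2 ^ K) Γ z) := by
      intro K
      rw [hG]
      simp only
      rw [← ext_finsum _ _ (fun k => hFi k)]
      unfold ext
      congr 1
      funext z
      congr 1
      show ∑ k ∈ Finset.range (K + 1), f z * chi Γ k z = _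
      rw [← Finset.mul_sum, sum_chi]
    simp_rw [h1]
    unfold ext
    refine tendsto_integral_of_dominated_convergence (fun z => ‖f z‖) ?_ hfi.norm ?_ ?_
    · intro K
      have hc1 : Continuous (fun z => Complex.exp (-(Complex.I * (ph p.1 p.2 z : ℂ)))) := by
        have := ph_continuous p.1 p.2
        fun_prop
      exact hc1.aestronglyMeasurable.mul
        (hfm.mul (hc_contDiff (sk K) (2 ^ K) Γ).continuous.aestronglyMeasurable)
    · intro K
      refine Eventually.of_forall fun z => ?_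
      rw [norm_mul, norm_exp_ph, one_mul, norm_mul]
      have h2 := norm_hc_le (sk K) (2 ^ K) Γ z
      have h3 := norm_nonneg (f z)
      nlinarith
    · have hae : ∀ᵐ z : ℂ, z ∉ Γ := compl_mem_ae_iff.mpr hnull
      filter_upwards [hae] with z hz
      refine Tendsto.const_mul _ ?_
      by_cases hz1 : 1 < ‖z‖
      · rw [hf0 z hz1]
        simp
      · have h2 : 0 < infDist z Γ := (hΓ.notMem_iff_infDist_pos hne).mp hz
        have h3 : Tendsto (fun K : ℕ => 5 * sk K) atTop (𝓝 0) := by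
          have h4 : Tendsto (fun K : ℕ => sk K) atTop (𝓝 0) := by
            unfold sk
            exact tendsto_pow_atTop_nhds_zero_of_lt_one (by norm_num) (by norm_num)
          simpa using h4.const_mul 5
        have h5 : ∀ᶠ K : ℕ in atTop, 5 * sk K < infDist z Γ := h3.eventually_lt_const h2
        refine tendsto_const_nhds.congr' ?_
        filter_upwards [h5] with K hK
        rw [hc_eq_one (sk_pos K) (sk_N K) (not_lt.mp hz1) hK.le, mul_one]
  have hlim := Lp.eLpNorm_lim_le_liminf_eLpNorm (p := ENNReal.ofReal q) (f := G)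
    (μ := (volume : Measure (ℂ × ℝ)))
    (fun K => by
      have : Continuous (G K) := by
        rw [hG]
        exact continuous_finsetSum _ fun k _ => hextm k
      exact this.aestronglyMeasurable)
    (fun p : ℂ × ℝ => ext f p.1 p.2) (Eventually.of_forall hconv)
  calc eLpNorm (fun p : ℂ × ℝ => ext f p.1 p.2) (ENNReal.ofReal q) volume
      ≤ atTop.liminf fun K => eLpNorm (G K) (ENNReal.ofReal q) volume := hlim
    _ ≤ atTop.liminf fun _ : ℕ => ENNReal.ofReal (C * T * A ^ ((q - 2) / q)) * X ^ (1 / q) :=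
        liminf_le_liminf (Eventually.of_forall hbound)
    _ = ENNReal.ofReal (C * T * A ^ ((q - 2) / q)) * X ^ (1 / q) := liminf_const _
    _ ≤ _ := by gcongr

end Pool.Agent.H25.Ext
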